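import Mathlib

/-!
Distribution of nonnegative numbers into bins of comparable size.
-/

set_option autoImplicit false

namespace Pool.Agent.V8H24.MX

open Finset

lemma bins_aux {ι : Type*} [DecidableEq ι] (G : ℕ) (hG : 0 < G) (x : ι → ℝ) (hx : ∀ i, 0 ≤ x i)
    (I : Finset ι) : ∃ (b : ι → Fin G) (Top : Finset ι), Top ⊆ I ∧ Top.card ≤ G ∧
      (Top.card < G → Top = I) ∧ Set.InjOn b Top ∧
      ∀ s s' : Fin G, ∑ i ∈ I \ Top, (if b i = s' then x i else 0) ≤
        ∑ i ∈ I, (if b i = s then x i else 0) := by
  have hne : (univ : Finset (Fin G)).Nonempty := ⟨⟨0, hG⟩, mem_univ _⟩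
  induction I using Finset.induction_on_min_value x with
  | empty =>
    exact ⟨fun _ => ⟨0, hG⟩, ∅, by simp, by simp, by simp, by simp, by simp⟩
  | insert c I hcI hmin ih =>
    obtain ⟨b, Top, h1, h2, h3, h4, h5⟩ := ih
    have hcT : c ∉ Top := fun h => hcI (h1 h)
    have hb : ∀ (s : Fin G) (i : ι), i ∈ I → Function.update b c s i = b i := fun s i hi =>
      Function.update_of_ne (fun h : i = c => hcI (h ▸ hi)) _ _
    rcases lt_or_eq_of_le h2 with h6 | h6
    · have hTI := h3 h6
      obtain ⟨s, hs⟩ : ∃ s, s ∉ Top.image b := by
        by_contra hcon
        push Not at hcon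
        have : (univ : Finset (Fin G)) ⊆ Top.image b := fun s _ => hcon s
        have := card_le_card this
        rw [card_univ, Fintype.card_fin] at this
        have := card_image_le (s := Top) (f := b)
        omega
      refine ⟨Function.update b c s, insert c I, subset_rfl, ?_, fun _ => rfl, ?_, ?_⟩
      · rw [card_insert_of_notMem hcI, ← hTI]
        omega
      · intro i hi j hj hij
        rw [coe_insert, Set.mem_insert_iff, mem_coe] at hi hj
        rcases hi with rfl | hi <;> rcases hj with rfl | hj
        · rfl
        · rw [Function.update_self, hb s j hj] at hij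
          exact absurd (mem_image.2 ⟨j, hTI ▸ hj, hij.symm⟩) hs
        · rw [Function.update_self, hb s i hi] at hij
          exact absurd (mem_image.2 ⟨i, hTI ▸ hi, hij⟩) hs
        · rw [hb s i hi, hb s j hj] at hij
          exact h4 (by rw [hTI]; exact hi) (by rw [hTI]; exact hj) hij
      · intro t t'
        rw [Finset.sdiff_self, sum_empty]
        refine sum_nonneg fun i _ => ?_
        split_ifs
        · exact hx i
        · exact le_rfl
    · obtain ⟨s, -, hs⟩ := Finset.exists_min_image univ
        (fun s : Fin G => ∑ i ∈ I \ Top, (if b i = s then x i else 0)) hne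
      have hsurj : ∀ t : Fin G, ∃ i ∈ Top, b i = t := by
        intro t
        have h7 : Top.image b = univ := by
          apply eq_univ_of_card
          rw [card_image_of_injOn h4, h6, Fintype.card_fin]
        have := mem_univ t
        rw [← h7] at this
        obtain ⟨i, hi, hit⟩ := mem_image.1 this
        exact ⟨i, hi, hit⟩
      refine ⟨Function.update b c s, Top, h1.trans (subset_insert _ _), h2, fun h => by omega,
        ?_, ?_⟩
      · intro i hi j hj hij
        rw [mem_coe] at hi hj
        rw [hb s i (h1 hi), hb s j (h1 hj)] at hij
        exact h4 hi hj hij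
      · intro t t'
        have e1 : insert c I \ Top = insert c (I \ Top) := by
          rw [insert_sdiff_of_notMem _ hcT]
        have e2 : ∀ u : Fin G, ∑ i ∈ insert c I, (if Function.update b c s i = u then x i else 0) =
            (if s = u then x c else 0) + ∑ i ∈ I, (if b i = u then x i else 0) := by
          intro u
          rw [sum_insert hcI, Function.update_self]
          congr 1
          exact sum_congr rfl fun i hi => by rw [hb s i hi]
        have e3 : ∀ u : Fin G, ∑ i ∈ insert c (I \ Top),
            (if Function.update b c s i = u then x i else 0) =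
            (if s = u then x c else 0) + ∑ i ∈ I \ Top, (if b i = u then x i else 0) := by
          intro u
          rw [sum_insert (fun h => hcI (mem_sdiff.1 h).1), Function.update_self]
          congr 1
          exact sum_congr rfl fun i hi => by rw [hb s i (mem_sdiff.1 hi).1]
        rw [e1, e3, e2]
        have h8 : 0 ≤ (if s = t then x c else 0) := by
          split_ifs
          · exact hx c
          · exact le_rfl
        by_cases h9 : s = t'
        · rw [if_pos h9]
          obtain ⟨i, hi, hit⟩ := hsurj t
          have h10 : ∑ j ∈ I, (if b j = t then x j else 0) =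
              ∑ j ∈ I \ Top, (if b j = t then x j else 0) + ∑ j ∈ Top, (if b j = t then x j else 0) :=
            (sum_sdiff h1).symm
          have h11 : x i ≤ ∑ j ∈ Top, (if b j = t then x j else 0) := by
            have := single_le_sum (f := fun j => if b j = t then x j else 0) (s := Top)
              (fun j _ => by
                beta_reduce
                split_ifs
                · exact hx j
                · exact le_rfl) hi
            beta_reduce at this
            rwa [if_pos hit] at this
          have h12 := hmin i (h1 hi)
          have h13 := hs t (mem_univ _)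
          rw [← h9]
          linarith
        · rw [if_neg h9]
          have := h5 t t'
          linarith

/-- The bins. -/
lemma bins {ι : Type*} [DecidableEq ι] (G : ℕ) (hG : 0 < G) (x : ι → ℝ) (hx : ∀ i, 0 ≤ x i)
    (I : Finset ι) : ∃ (b : ι → Fin G) (Top : Finset ι), Top ⊆ I ∧ Top.card ≤ G ∧
      ∀ s s' : Fin G, ∑ i ∈ (I \ Top).filter (fun i => b i = s'), x i ≤
        ∑ i ∈ I.filter (fun i => b i = s), x i := by
  obtain ⟨b, Top, h1, h2, -, -, h5⟩ := bins_aux G hG x hx I
  refine ⟨b, Top, h1, h2, fun s s' => ?_⟩
  rw [sum_filter, sum_filter]
  exact h5 s s'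

end Pool.Agent.V8H24.MX
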