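import Pool.Agent.V8H24.MX.Wt

/-!
Second moments of convolutions of uniform measures and the weighted bound for a product of
differences.
-/

set_option autoImplicit false

namespace Pool.Agent.V8H24.MX

open Finset Pool.Agent.R248.Ritt

/-- The second moment. -/
noncomputable def M2 (f : A) : ℝ := Mo (fun k => (k : ℝ) ^ 2) f

lemma sum_lin (n : ℕ) (c : ℝ) : ∑ i ∈ range n, ((i : ℝ) - c) = n * (n - 1) / 2 - n * c := by
  induction n with
  | zero => simp
  | succ n ih =>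
    rw [sum_range_succ, ih]
    push_cast
    ring

lemma M2_T_mul (j : ℤ) (f : A) :
    M2 (T j * f) = M2 f + (2 * (j : ℝ)) * Mo (fun k => (k : ℝ)) f + (j : ℝ) ^ 2 * Mo (fun _ => 1) f := by
  unfold M2
  rw [Mo_T_mul, ← Mo_fmul, ← Mo_fmul, ← Mo_fadd, ← Mo_fadd]
  congr 1
  ext k
  push_cast
  ring

lemma M2_U_mul (r : ℕ) (f : A) :
    M2 (U r * f) = M2 f + (r * (r + 1) / 3 : ℝ) * Mo (fun _ => 1) f := by
  have h1 : U r * f = ((2 * r + 1 : ℝ))⁻¹ • ∑ i ∈ range (2 * r + 1), T ((i : ℤ) - r) * f := by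
    unfold U
    rw [smul_mul_assoc, Finset.sum_mul]
  have h2 : M2 (U r * f) = ((2 * r + 1 : ℝ))⁻¹ * ∑ i ∈ range (2 * r + 1), M2 (T ((i : ℤ) - r) * f) := by
    rw [h1]
    unfold M2
    rw [Mo_smul, Mo_sum]
  rw [h2]
  simp only [M2_T_mul]
  set a := M2 f
  set b := Mo (fun k => (k : ℝ)) f
  set c := Mo (fun _ => 1) f
  have h3 : ∑ i ∈ range (2 * r + 1), (a + 2 * (((i : ℤ) - (r : ℤ) : ℤ) : ℝ) * b +
      (((i : ℤ) - (r : ℤ) : ℤ) : ℝ) ^ 2 * c) =
      (2 * r + 1) * a + 2 * b * ∑ i ∈ range (2 * r + 1), ((i : ℝ) - r) +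
        c * ∑ i ∈ range (2 * r + 1), ((i : ℝ) - r) ^ 2 := by
    rw [sum_add_distrib, sum_add_distrib, Finset.mul_sum, Finset.mul_sum]
    congr 1
    · congr 1
      · simp
      · refine sum_congr rfl fun i _ => ?_
        push_cast
        ring
    · refine sum_congr rfl fun i _ => ?_
      push_cast
      ring
  rw [h3, sum_lin, sum_sq]
  have h4 : (2 * (r : ℝ) + 1) ≠ 0 := by positivity
  field_simp
  push_cast
  ring

lemma M2_prod_le {ι : Type*} (s : Finset ι) (r : ι → ℕ) :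
    M2 (∏ i ∈ s, U (r i)) ≤ ∑ i ∈ s, (r i : ℝ) ^ 2 := by
  classical
  induction s using Finset.induction_on with
  | empty =>
    simp only [prod_empty, sum_empty]
    unfold M2 Mo
    rw [tsum_eq_single 0]
    · simp
    · intro k hk
      rw [coeff_one, if_neg hk, zero_mul]
  | insert a s ha ih =>
    rw [prod_insert ha, sum_insert ha, M2_U_mul, Mo_one_of_nonneg (SU_prod s r).nonneg]
    have h1 : N1 (∏ i ∈ s, U (r i)) ≤ 1 := N1_prod_U_le s r
    have h2 : 0 ≤ N1 (∏ i ∈ s, U (r i)) := N1_nonneg _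
    have h3 : (r a * (r a + 1) / 3 : ℝ) ≤ (r a : ℝ) ^ 2 := by
      rcases Nat.eq_zero_or_pos (r a) with h | h
      · rw [h]; norm_num
      · have : (1 : ℝ) ≤ r a := by exact_mod_cast h
        nlinarith
    have h4 : (0 : ℝ) ≤ (r a * (r a + 1) / 3 : ℝ) := by positivity
    nlinarith

/-- The product of the uniform measures over a group. -/
noncomputable def P {ι : Type*} (r : ι → ℕ) (s : Finset ι) : A := ∏ i ∈ s, U (r i)

/-- The sum of the squares of the radii over a group. -/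
noncomputable def X {ι : Type*} (r : ι → ℕ) (s : Finset ι) : ℝ := ∑ i ∈ s, (r i : ℝ) ^ 2

lemma X_nonneg {ι : Type*} (r : ι → ℕ) (s : Finset ι) : 0 ≤ X r s :=
  sum_nonneg fun _ _ => sq_nonneg _

lemma X_mono {ι : Type*} (r : ι → ℕ) {s t : Finset ι} (h : s ⊆ t) : X r s ≤ X r t :=
  sum_le_sum_of_subset_of_nonneg h fun _ _ _ => sq_nonneg _

lemma Mo_abs_le {σ : ℝ} (hσ : 1 ≤ σ) {f : A} (hf : ∀ k, 0 ≤ f.coeff k) (h1 : N1 f ≤ 1)
    (h2 : M2 f ≤ σ ^ 2) : Mo (fun k => |(k : ℝ)|) f ≤ σ := by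
  have h0 : 0 < σ := by linarith
  have h3 : Mo (fun k => |(k : ℝ)|) f ≤ (1 / (2 * σ)) * M2 f + (σ / 2) * N1 f := by
    unfold M2
    rw [← Mo_one_of_nonneg hf, ← Mo_fmul, ← Mo_fmul, ← Mo_fadd]
    refine Mo_mono hf fun k => ?_
    have h4 : 0 ≤ (|(k : ℝ)| - σ) ^ 2 := sq_nonneg _
    rw [← sq_abs (k : ℝ)]
    have h5 : 1 / (2 * σ) * |(k : ℝ)| ^ 2 + σ / 2 * 1 - |(k : ℝ)| =
        (1 / (2 * σ)) * (|(k : ℝ)| - σ) ^ 2 := by
      field_simp
      ring
    have h6 : 0 ≤ (1 / (2 * σ)) * (|(k : ℝ)| - σ) ^ 2 := by positivity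
    linarith
  have h4 : (1 / (2 * σ)) * M2 f ≤ (1 / (2 * σ)) * σ ^ 2 :=
    mul_le_mul_of_nonneg_left h2 (by positivity)
  have h5 : (1 / (2 * σ)) * σ ^ 2 = σ / 2 := by field_simp
  have h6 : (σ / 2) * N1 f ≤ (σ / 2) * 1 := mul_le_mul_of_nonneg_left h1 (by positivity)
  linarith

/-- The weighted norm of the difference of a product of uniform measures. -/
lemma NW_P_le {ι : Type*} {σ : ℝ} (hσ : 1 ≤ σ) (r : ι → ℕ) (s : Finset ι) (h0 : 0 < X r s)
    (h1 : X r s ≤ σ ^ 2) : NF (W σ) ((1 - T 1) * P r s) ≤ 20 / √(X r s) := by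
  have hσ0 : 0 < σ := by linarith
  have h2 := NW_diff_le hσ (SU_prod s r)
  have h3 : Mo (fun k => |(k : ℝ)|) (P r s) ≤ σ :=
    Mo_abs_le hσ (SU_prod s r).nonneg (N1_prod_U_le s r) ((M2_prod_le s r).trans h1)
  have h4 : N1 (P r s) ≤ 1 := N1_prod_U_le s r
  have hz : 0 ≤ (P r s).coeff 0 := (SU_prod s r).nonneg 0
  have h5 : (P r s).coeff 0 ^ 2 * X r s ≤ 15 / 2 := prod_U_zero s r
  set q := √(X r s) with hq
  have hq0 : 0 < q := Real.sqrt_pos.2 h0
  have hq2 : q ^ 2 = X r s := Real.sq_sqrt h0.le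
  have hqσ : q ≤ σ := by
    rw [hq]
    exact Real.sqrt_le_iff.2 ⟨hσ0.le, h1⟩
  have h6 : (P r s).coeff 0 * q ≤ 3 := by
    rw [← hq2, ← mul_pow] at h5
    by_contra hc
    push Not at hc
    nlinarith
  rw [le_div_iff₀ hq0]
  have h7 : NF (W σ) ((1 - T 1) * P r s) ≤ 5 * (P r s).coeff 0 + 5 / σ := by
    refine h2.trans ?_
    have a1 : 3 / σ * N1 (∏ i ∈ s, U (r i)) ≤ 3 / σ * 1 :=
      mul_le_mul_of_nonneg_left h4 (by positivity)
    have a2 : 2 / σ ^ 2 * Mo (fun k => |(k : ℝ)|) (∏ i ∈ s, U (r i)) ≤ 2 / σ ^ 2 * σ :=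
      mul_le_mul_of_nonneg_left h3 (by positivity)
    have a3 : 2 / σ ^ 2 * σ = 2 / σ := by field_simp
    have a4 : 5 / σ = 3 / σ * 1 + 2 / σ := by ring
    have a5 : (P r s).coeff 0 = (∏ i ∈ s, U (r i)).coeff 0 := rfl
    rw [a5]
    linarith
  have h8 : 5 / σ * q ≤ 5 := by
    rw [div_mul_eq_mul_div, div_le_iff₀ hσ0]
    linarith
  have h9 := mul_le_mul_of_nonneg_right h7 hq0.le
  nlinarith

/-- The second difference representation with control of the weighted norm. -/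
lemma one_sub_U_W {σ : ℝ} (hσ : 1 ≤ σ) (r : ℕ) (hr : (r : ℝ) ≤ σ) :
    ∃ w : A, 1 - U r = w * (1 - T 1) * (1 - T (-1)) ∧ NF (W σ) w ≤ 16 * (r : ℝ) ^ 2 / 3 := by
  have hG : ∀ x : ℕ, (1 - T 1) * ∑ i ∈ range x, T (i : ℤ) = 1 - T x := by
    intro x
    rw [Finset.mul_sum]
    have : ∀ i : ℕ, (1 - T 1) * T (i : ℤ) = T (i : ℤ) - T ((i + 1 : ℕ) : ℤ) := by
      intro i
      rw [sub_mul, one_mul, T_mul, add_comm]
      push_cast
      rfl
    simp only [this]
    rw [Finset.sum_range_sub' (fun i : ℕ => T (i : ℤ))]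
    simp [T_zero]
  have hG' : ∀ x : ℕ, (1 - T (-1)) * ∑ i ∈ range x, T (-(i : ℤ)) = 1 - T (-(x : ℤ)) := by
    intro x
    rw [Finset.mul_sum]
    have : ∀ i : ℕ, (1 - T (-1)) * T (-(i : ℤ)) = T (-(i : ℤ)) - T (-((i + 1 : ℕ) : ℤ)) := by
      intro i
      rw [sub_mul, one_mul, T_mul]
      congr 2
      push_cast
      ring
    simp only [this]
    rw [Finset.sum_range_sub' (fun i : ℕ => T (-(i : ℤ)))]
    simp [T_zero]
  set Q : ℕ → A := fun x => (∑ i ∈ range x, T (i : ℤ)) * ∑ i ∈ range x, T (-(i : ℤ)) with hQ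
  have hQN : ∀ x ∈ range (r + 1), NF (W σ) (Q x) ≤ 16 * (x : ℝ) ^ 2 := by
    intro x hx
    have hx' : (x : ℝ) ≤ r := by exact_mod_cast Nat.lt_succ_iff.1 (Finset.mem_range.1 hx)
    refine (NW_mul_le hσ _ _).trans ?_
    have h1 : NF (W σ) (∑ i ∈ range x, T (i : ℤ)) ≤ 4 * x := by
      refine (NF_sum_le (W_nonneg hσ) _ _).trans ?_
      have : ∀ i ∈ range x, NF (W σ) (T (i : ℤ)) ≤ 4 := by
        intro i hi
        rw [NW_T_le]
        refine W_le_four hσ ?_
        have : (i : ℝ) ≤ x := by exact_mod_cast (Finset.mem_range.1 hi).le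
        rw [Int.cast_natCast, abs_of_nonneg (by positivity)]
        linarith
      refine (sum_le_sum this).trans (le_of_eq ?_)
      simp
      ring
    have h2 : NF (W σ) (∑ i ∈ range x, T (-(i : ℤ))) ≤ 4 * x := by
      refine (NF_sum_le (W_nonneg hσ) _ _).trans ?_
      have : ∀ i ∈ range x, NF (W σ) (T (-(i : ℤ))) ≤ 4 := by
        intro i hi
        rw [NW_T_le]
        refine W_le_four hσ ?_
        have : (i : ℝ) ≤ x := by exact_mod_cast (Finset.mem_range.1 hi).le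
        rw [Int.cast_neg, Int.cast_natCast, abs_neg, abs_of_nonneg (by positivity)]
        linarith
      refine (sum_le_sum this).trans (le_of_eq ?_)
      simp
      ring
    have h3 := mul_le_mul h1 h2 (NF_nonneg (W_nonneg hσ) _) (by positivity)
    refine h3.trans (le_of_eq (by ring))
  have hQD : ∀ x : ℕ, Q x * ((1 - T 1) * (1 - T (-1))) = 2 - T x - T (-(x : ℤ)) := by
    intro x
    have e : Q x * ((1 - T 1) * (1 - T (-1))) = (1 - T x) * (1 - T (-(x : ℤ))) := by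
      rw [← hG, ← hG', hQ]
      ring
    rw [e]
    have h : T (x : ℤ) * T (-(x : ℤ)) = 1 := by rw [T_mul]; simp [T_zero]
    linear_combination h
  have hU : ∀ r : ℕ, (2 * r + 1 : ℝ) • (1 - U r) = ∑ x ∈ range (r + 1), (2 - T x - T (-(x : ℤ))) := by
    intro r
    have h1 : (2 * r + 1 : ℝ) • U r = ∑ i ∈ range (2 * r + 1), T ((i : ℤ) - r) := by
      unfold U
      rw [smul_smul, mul_inv_cancel₀ (by positivity), one_smul]
    have h2 : ∑ i ∈ range (2 * r + 1), T ((i : ℤ) - r) =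
        ∑ x ∈ range (r + 1), (T (x : ℤ) + T (-(x : ℤ))) - 1 := by
      have h3 : ∑ i ∈ range (2 * r + 1), T ((i : ℤ) - r) =
          ∑ i ∈ range r, T ((i : ℤ) - r) + ∑ i ∈ range (r + 1), T (i : ℤ) := by
        rw [show 2 * r + 1 = r + (r + 1) by ring, sum_range_add]
        congr 1
        refine sum_congr rfl fun i _ => ?_
        congr 1
        push_cast
        ring
      have h4 : ∑ i ∈ range r, T ((i : ℤ) - r) = ∑ i ∈ range r, T (-((i + 1 : ℕ) : ℤ)) := by
        rw [← Finset.sum_range_reflect]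
        refine sum_congr rfl fun i hi => ?_
        have := Finset.mem_range.1 hi
        congr 1
        omega
      have h5 := Finset.sum_range_succ' (fun i : ℕ => T (-(i : ℤ))) r
      rw [h3, h4, sum_add_distrib, h5]
      simp [T_zero]
      ring
    rw [smul_sub, h1, h2]
    have h6 : ∑ x ∈ range (r + 1), (2 - T (x:ℤ) - T (-(x : ℤ))) =
        (r + 1 : ℕ) • (2 : A) - ∑ x ∈ range (r + 1), (T (x : ℤ) + T (-(x : ℤ))) := by
      have : ∀ x : ℕ, 2 - T (x:ℤ) - T (-(x : ℤ)) = 2 - (T (x : ℤ) + T (-(x : ℤ))) := fun x => by ring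
      simp only [this]
      rw [sum_sub_distrib]
      simp
    rw [h6]
    have h7 : (2 * r + 1 : ℝ) • (1 : A) = (r + 1 : ℕ) • (2 : A) - 1 := by
      have e1 : (2 * r + 1 : ℝ) • (1 : A) = ((2 * r + 1 : ℕ) : A) := by
        have := Nat.cast_smul_eq_nsmul ℝ (2 * r + 1) (1 : A)
        rw [nsmul_one] at this
        rw [← this]
        push_cast
        rfl
      rw [e1, nsmul_eq_mul]
      push_cast
      ring
    rw [h7]
    ring
  refine ⟨((2 * r + 1 : ℝ))⁻¹ • ∑ x ∈ range (r + 1), Q x, ?_, ?_⟩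
  · have h1 : (2 * r + 1 : ℝ) • (1 - U r) =
        (∑ x ∈ range (r + 1), Q x) * ((1 - T 1) * (1 - T (-1))) := by
      rw [hU, Finset.sum_mul]
      exact sum_congr rfl fun x _ => (hQD x).symm
    have h2 : 1 - U r = ((2 * r + 1 : ℝ))⁻¹ • ((2 * r + 1 : ℝ) • (1 - U r)) := by
      rw [smul_smul, inv_mul_cancel₀ (by positivity), one_smul]
    rw [h2, h1, mul_assoc, smul_mul_assoc]
  · rw [NF_smul, abs_of_pos (by positivity)]
    have hsq : ∀ n : ℕ, ∑ x ∈ range (n + 1), 16 * (x : ℝ) ^ 2 =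
        16 * ((n : ℝ) * (n + 1) * (2 * n + 1) / 6) := by
      intro n
      induction n with
      | zero => simp
      | succ n ih =>
        rw [sum_range_succ, ih]
        push_cast
        ring
    have h1 : NF (W σ) (∑ x ∈ range (r + 1), Q x) ≤ 16 * ((r : ℝ) * (r + 1) * (2 * r + 1) / 6) := by
      refine (NF_sum_le (W_nonneg hσ) _ _).trans ((sum_le_sum fun x hx => hQN x hx).trans ?_)
      rw [hsq]
    calc (2 * (r:ℝ) + 1)⁻¹ * NF (W σ) _ ≤
          (2 * (r:ℝ) + 1)⁻¹ * (16 * ((r : ℝ) * (r + 1) * (2 * r + 1) / 6)) :=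
          mul_le_mul_of_nonneg_left h1 (by positivity)
      _ = 16 * ((r : ℝ) * (r + 1) / 6) := by field_simp
      _ ≤ 16 * (r : ℝ) ^ 2 / 3 := by
          rcases Nat.eq_zero_or_pos r with h | h
          · subst h; simp
          · have : (1:ℝ) ≤ r := by exact_mod_cast h
            nlinarith

/-- The basic inequality for a product of differences against pairs of groups. -/
lemma core {ι κ : Type*} [DecidableEq ι] [DecidableEq κ] {σ β : ℝ} (hσ : 1 ≤ σ) (hβ : 0 < β)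
    (r : ι → ℕ) (S : κ → Finset ι) (V : A) (J : Finset ι) :
    ∀ D : Finset κ, D.card = 2 * J.card → (∀ j ∈ J, (r j : ℝ) ^ 2 ≤ σ ^ 2) →
      (∀ s ∈ D, β ≤ X r (S s) ∧ X r (S s) ≤ σ ^ 2) →
      NF (W σ) ((1 - T 1) * ((∏ j ∈ J, (1 - U (r j))) * (∏ s ∈ D, P r (S s)) * V)) ≤
        (∏ j ∈ J, (9000 * (r j : ℝ) ^ 2 / β)) * NF (W σ) ((1 - T 1) * V) := by
  have hσ0 : 0 < σ := by linarith
  induction J using Finset.induction_on with
  | empty =>
    intro D hD _ _
    rw [card_empty, mul_zero, card_eq_zero] at hD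
    subst hD
    simp
  | insert j J hj ih =>
    intro D hD hJ hS
    rw [card_insert_of_notMem hj] at hD
    obtain ⟨s, hs, t, ht, hst⟩ := Finset.one_lt_card.1 (by omega : 1 < D.card)
    have ht' : t ∈ D.erase s := mem_erase.2 ⟨hst.symm, ht⟩
    have hcard : ((D.erase s).erase t).card = 2 * J.card := by
      rw [card_erase_of_mem ht', card_erase_of_mem hs]
      omega
    have h1 := ih ((D.erase s).erase t) hcard (fun i hi => hJ i (mem_insert_of_mem hi))
      (fun u hu => hS u (mem_of_mem_erase (mem_of_mem_erase hu)))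
    have hrj : (r j : ℝ) ≤ σ := by
      have := hJ j (mem_insert_self _ _)
      exact abs_le_of_sq_le_sq' this hσ0.le |>.2
    obtain ⟨w, hw, hwN⟩ := one_sub_U_W hσ (r j) hrj
    have e1 : ∏ u ∈ D, P r (S u) =
        P r (S s) * (P r (S t) * ∏ u ∈ (D.erase s).erase t, P r (S u)) := by
      rw [mul_prod_erase (D.erase s) (fun u => P r (S u)) ht',
        mul_prod_erase D (fun u => P r (S u)) hs]
    have e2 : (1 - T 1) * ((∏ i ∈ insert j J, (1 - U (r i))) * (∏ u ∈ D, P r (S u)) * V) =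
        w * (((1 - T 1) * P r (S s)) * (((1 - T (-1)) * P r (S t)) *
          ((1 - T 1) * ((∏ i ∈ J, (1 - U (r i))) *
            (∏ u ∈ (D.erase s).erase t, P r (S u)) * V)))) := by
      rw [prod_insert hj, hw, e1]
      ring
    have e3 : (1 - T (-1)) * P r (S t) = -(T (-1) * ((1 - T 1) * P r (S t))) := by
      have h : T (-1) * T 1 = 1 := by rw [T_mul]; simp [T_zero]
      linear_combination (-P r (S t)) * h
    obtain ⟨hs1, hs2⟩ := hS s hs
    obtain ⟨ht1, ht2⟩ := hS t ht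
    have sb : 0 < √β := Real.sqrt_pos.2 hβ
    have hsB : NF (W σ) ((1 - T 1) * P r (S s)) ≤ 20 / √β :=
      (NW_P_le hσ r (S s) (by linarith) hs2).trans
        (div_le_div_of_nonneg_left (by norm_num) sb (Real.sqrt_le_sqrt hs1))
    have htB' : NF (W σ) ((1 - T 1) * P r (S t)) ≤ 20 / √β :=
      (NW_P_le hσ r (S t) (by linarith) ht2).trans
        (div_le_div_of_nonneg_left (by norm_num) sb (Real.sqrt_le_sqrt ht1))
    have htB : NF (W σ) ((1 - T (-1)) * P r (S t)) ≤ 4 * (20 / √β) := by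
      rw [e3, NF_neg]
      refine (NW_T_mul_le hσ _ _).trans ?_
      refine mul_le_mul (W_le_four hσ ?_) htB' (NF_nonneg (W_nonneg hσ) _) (by norm_num)
      push_cast
      rw [abs_neg, abs_one]
      exact hσ
    rw [e2, prod_insert hj]
    have n0 : ∀ g : A, 0 ≤ NF (W σ) g := fun g => NF_nonneg (W_nonneg hσ) g
    set R := NF (W σ) ((1 - T 1) * V)
    set Z1 := ∏ i ∈ J, (9000 * (r i : ℝ) ^ 2 / β)
    have hZ : 0 ≤ Z1 := prod_nonneg fun i _ => by positivity
    calc NF (W σ) (w * (((1 - T 1) * P r (S s)) * (((1 - T (-1)) * P r (S t)) *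
          ((1 - T 1) * ((∏ i ∈ J, (1 - U (r i))) *
            (∏ u ∈ (D.erase s).erase t, P r (S u)) * V)))))
        ≤ (16 * (r j : ℝ) ^ 2 / 3) * ((20 / √β) * ((4 * (20 / √β)) * (Z1 * R))) := by
          refine (NW_mul_le hσ _ _).trans ?_
          refine mul_le_mul hwN ?_ (n0 _) (by positivity)
          refine (NW_mul_le hσ _ _).trans ?_
          refine mul_le_mul hsB ?_ (n0 _) (by positivity)
          refine (NW_mul_le hσ _ _).trans ?_
          exact mul_le_mul htB h1 (n0 _) (by positivity)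
      _ = (16 * 20 * 80 / 3) * (r j : ℝ) ^ 2 / (√β * √β) * (Z1 * R) := by
          field_simp
          ring
      _ = (16 * 20 * 80 / 3) * ((r j : ℝ) ^ 2 / β * (Z1 * R)) := by
          rw [Real.mul_self_sqrt hβ.le]
          ring
      _ ≤ 9000 * ((r j : ℝ) ^ 2 / β * (Z1 * R)) := by
          refine mul_le_mul_of_nonneg_right (by norm_num) ?_
          have := n0 ((1 - T 1) * V)
          positivity
      _ = 9000 * (r j : ℝ) ^ 2 / β * Z1 * R := by ring

end Pool.Agent.V8H24.MX
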