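import Pool.Agent.V8H24.MX.Maj
import Pool.Agent.V8H24.MX.Bins

/-!
The deterministic bound for the sum over all choices of `m` differences.
-/

set_option autoImplicit false

namespace Pool.Agent.V8H24.MX

open Finset Pool.Agent.R248.Ritt

/-- The constant of the bound for one choice. -/
noncomputable def KB (m : ℕ) : ℝ := 60 * (2 * m + 1) * (9000 * (3 * m + 1)) ^ m

lemma KB_ge_one (m : ℕ) : 1 ≤ KB m := by
  unfold KB
  have h1 : (1 : ℝ) ≤ (9000 * (3 * m + 1)) ^ m := one_le_pow₀ (by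
    have : (0 : ℝ) ≤ m := by positivity
    linarith)
  have h2 : (1 : ℝ) ≤ 60 * (2 * m + 1) := by
    have : (0 : ℝ) ≤ m := by positivity
    linarith
  nlinarith

lemma split_prod {ι M : Type*} [DecidableEq ι] [CommMonoid M] {κ : Type*} [DecidableEq κ]
    (f : ι → M) (I I' : Finset ι) (b : ι → κ) (D : Finset κ)
    (h : ∀ s ∈ D, I'.filter (fun i => b i = s) = I.filter (fun i => b i = s)) :
    ∏ i ∈ I', f i = (∏ s ∈ D, ∏ i ∈ I.filter (fun i => b i = s), f i) *
      ∏ i ∈ I'.filter (fun i => b i ∉ D), f i := by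
  rw [← prod_filter_mul_prod_filter_not I' (fun i => b i ∈ D)]
  congr 1
  rw [← prod_fiberwise_of_maps_to (s := I'.filter (fun i => b i ∈ D)) (t := D) (g := b)
    (fun i hi => (mem_filter.1 hi).2)]
  refine prod_congr rfl fun s hs => ?_
  rw [← h s hs]
  refine prod_congr ?_ fun _ _ => rfl
  ext i
  simp only [mem_filter]
  constructor
  · rintro ⟨⟨h1, -⟩, h3⟩
    exact ⟨h1, h3⟩
  · rintro ⟨h1, h3⟩
    exact ⟨⟨h1, h3 ▸ hs⟩, h3⟩

lemma split_sum {ι : Type*} [DecidableEq ι] {κ : Type*} [DecidableEq κ]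
    (f : ι → ℝ) (I I' : Finset ι) (b : ι → κ) (D : Finset κ)
    (h : ∀ s ∈ D, I'.filter (fun i => b i = s) = I.filter (fun i => b i = s)) :
    ∑ i ∈ I', f i = (∑ s ∈ D, ∑ i ∈ I.filter (fun i => b i = s), f i) +
      ∑ i ∈ I'.filter (fun i => b i ∉ D), f i := by
  rw [← sum_filter_add_sum_filter_not I' (fun i => b i ∈ D)]
  congr 1
  rw [← sum_fiberwise_of_maps_to (s := I'.filter (fun i => b i ∈ D)) (t := D) (g := b)
    (fun i hi => (mem_filter.1 hi).2)]
  refine sum_congr rfl fun s hs => ?_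
  rw [← h s hs]
  refine sum_congr ?_ fun _ _ => rfl
  ext i
  simp only [mem_filter]
  constructor
  · rintro ⟨⟨h1, -⟩, h3⟩
    exact ⟨h1, h3⟩
  · rintro ⟨h1, h3⟩
    exact ⟨⟨h1, h3 ▸ hs⟩, h3⟩

lemma one_le_X {ι : Type*} (r : ι → ℕ) (s : Finset ι) (h : 0 < X r s) : 1 ≤ X r s := by
  have e : X r s = ((∑ i ∈ s, r i ^ 2 : ℕ) : ℝ) := by
    unfold X
    push_cast
    rfl
  rw [e] at h ⊢
  have : 0 < ∑ i ∈ s, r i ^ 2 := by exact_mod_cast h
  exact_mod_cast this

section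

variable {F : ℤ → ℝ} (hF : ∀ k, 0 ≤ F k) {B : ℝ} (hB0 : 0 ≤ B)
    (hB : ∀ R : ℕ, ∑ j ∈ Icc (-(R : ℤ)) (R : ℤ), F j ≤ (2 * (R : ℝ) + 1) * B)

include hF hB0 hB

lemma claimB {ι : Type*} [DecidableEq ι] (m : ℕ) (I J Top t : Finset ι) (r : ι → ℕ)
    (b : ι → Fin (3 * m + 1))
    (hbins : ∀ s s' : Fin (3 * m + 1), X r ((I \ Top).filter (fun i => b i = s')) ≤
      X r (I.filter (fun i => b i = s)))
    (hJ : J ⊆ I) (hm : J.card ≤ m) (ht : t ⊆ J ∩ Top) :
    NF F ((∏ j ∈ J \ Top, (1 - U (r j))) * P r ((I \ J) ∪ t)) ≤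
      KB m * B * ∏ j ∈ J \ Top, ((r j : ℝ) ^ 2 / X r (I \ Top)) := by
  have hKB := KB_ge_one m
  have hprod0 : 0 ≤ ∏ j ∈ J \ Top, ((r j : ℝ) ^ 2 / X r (I \ Top)) :=
    prod_nonneg fun j _ => div_nonneg (sq_nonneg _) (X_nonneg _ _)
  rcases (J \ Top).eq_empty_or_nonempty with hE | hE
  · rw [hE, prod_empty, prod_empty, one_mul, mul_one]
    have h1 : NF F (P r ((I \ J) ∪ t)) ≤ B :=
      NF_SU_le (SU_prod _ r) (N1_prod_U_le _ r) F B hB0 hB
    nlinarith
  rcases (X_nonneg r (I \ Top)).eq_or_lt with h0 | h0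
  · obtain ⟨j, hj⟩ := hE
    have hjI : j ∈ I \ Top := by
      rw [mem_sdiff] at hj ⊢
      exact ⟨hJ hj.1, hj.2⟩
    have h1 : (r j : ℝ) ^ 2 ≤ X r (I \ Top) :=
      single_le_sum (f := fun i => (r i : ℝ) ^ 2) (fun _ _ => sq_nonneg _) hjI
    have h2 : r j = 0 := by
      have h3 : (r j : ℝ) ^ 2 = 0 := le_antisymm (by linarith) (sq_nonneg _)
      exact_mod_cast pow_eq_zero_iff (two_ne_zero) |>.1 h3
    have h3 : ∏ j ∈ J \ Top, (1 - U (r j)) = 0 := prod_eq_zero hj (by rw [h2, U_zero, sub_self])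
    rw [h3, zero_mul, NF_zero]
    exact mul_nonneg (mul_nonneg (by linarith) hB0) hprod0
  -- the main case
  set I' := (I \ J) ∪ t with hI'
  set Sg : Fin (3 * m + 1) → Finset ι := fun s => I.filter (fun i => b i = s) with hSg
  set clean := (univ : Finset (Fin (3 * m + 1))) \ J.image b with hclean
  have hcl : ∀ s ∈ clean, ∀ i ∈ J, b i ≠ s := by
    intro s hs i hi h
    rw [hclean, mem_sdiff] at hs
    exact hs.2 (mem_image.2 ⟨i, hi, h⟩)
  have hccard : 2 * m + 1 ≤ clean.card := by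
    have h1 := le_card_sdiff (J.image b) (univ : Finset (Fin (3 * m + 1)))
    rw [card_univ, Fintype.card_fin] at h1
    have h2 := card_image_le (s := J) (f := b)
    rw [hclean]
    omega
  obtain ⟨s0, hs0, hmax⟩ := Finset.exists_max_image clean (fun s => X r (Sg s))
    (card_pos.1 (by omega))
  have hJ'card : (J \ Top).card ≤ m := (card_le_card sdiff_subset).trans hm
  obtain ⟨D, hDsub, hDcard⟩ := exists_subset_card_eq (s := clean.erase s0)
    (n := 2 * (J \ Top).card) (by rw [card_erase_of_mem hs0]; omega)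
  have hDclean : ∀ s ∈ D, s ∈ clean := fun s hs => mem_of_mem_erase (hDsub hs)
  have hs0D : s0 ∉ D := fun h => (mem_erase.1 (hDsub h)).1 rfl
  have hfib : ∀ s ∈ clean, I'.filter (fun i => b i = s) = I.filter (fun i => b i = s) := by
    intro s hs
    ext i
    simp only [hI', mem_filter, mem_union, mem_sdiff]
    constructor
    · rintro ⟨h1 | h1, h2⟩
      · exact ⟨h1.1, h2⟩
      · exact absurd h2 (hcl s hs i (mem_inter.1 (ht h1)).1)
    · rintro ⟨h1, h2⟩
      exact ⟨Or.inl ⟨h1, fun h3 => hcl s hs i h3 h2⟩, h2⟩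
  set u := I'.filter (fun i => b i ∉ D) with hu
  have hP : P r I' = (∏ s ∈ D, P r (Sg s)) * P r u :=
    split_prod (fun i => U (r i)) I I' b D (fun s hs => hfib s (hDclean s hs))
  have hX : X r I' = (∑ s ∈ D, X r (Sg s)) + X r u :=
    split_sum (fun i => (r i : ℝ) ^ 2) I I' b D (fun s hs => hfib s (hDclean s hs))
  have hs0u : Sg s0 ⊆ u := by
    intro i hi
    have h1 : i ∈ I'.filter (fun i => b i = s0) := by rw [hfib s0 hs0]; exact hi
    rw [mem_filter] at h1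
    rw [hu, mem_filter]
    exact ⟨h1.1, by rw [h1.2]; exact hs0D⟩
  have hXu := X_mono r hs0u
  have huI : X r u ≤ X r I' := X_mono r (filter_subset _ _)
  set β := X r (I \ Top) / (3 * m + 1) with hβdef
  have hm0 : (0 : ℝ) < 3 * m + 1 := by positivity
  have hβ : 0 < β := div_pos h0 hm0
  have hβle : ∀ s, β ≤ X r (Sg s) := by
    intro s
    rw [hβdef, div_le_iff₀ hm0]
    have h1 : X r (I \ Top) = ∑ s' : Fin (3 * m + 1), X r ((I \ Top).filter (fun i => b i = s')) := by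
      unfold X
      rw [sum_fiberwise]
    rw [h1]
    refine (sum_le_sum fun s' _ => hbins s s').trans (le_of_eq ?_)
    rw [sum_const, card_univ, Fintype.card_fin, nsmul_eq_mul]
    push_cast
    ring
  have hXupos : 0 < X r u := lt_of_lt_of_le hβ ((hβle s0).trans hXu)
  have hXu1 := one_le_X r u hXupos
  have hXI1 : 1 ≤ X r I' := hXu1.trans huI
  have hDsum : ∑ s ∈ D, X r (Sg s) ≤ 2 * m * X r u := by
    have h1 : ∑ s ∈ D, X r (Sg s) ≤ ∑ _s ∈ D, X r u :=
      sum_le_sum fun s hs => (hmax s (hDclean s hs)).trans hXu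
    rw [sum_const, nsmul_eq_mul, hDcard] at h1
    refine h1.trans (mul_le_mul_of_nonneg_right ?_ hXupos.le)
    push_cast
    have : ((J \ Top).card : ℝ) ≤ m := by exact_mod_cast hJ'card
    linarith
  set σ := √(X r I') with hσdef
  have hσ2 : σ ^ 2 = X r I' := Real.sq_sqrt (by linarith)
  have hσ : 1 ≤ σ := by
    rw [hσdef]
    exact Real.one_le_sqrt.2 hXI1
  have hJσ : ∀ j ∈ J \ Top, (r j : ℝ) ^ 2 ≤ σ ^ 2 := by
    intro j hj
    rw [hσ2]
    have hjI : j ∈ (I \ Top).filter (fun i => b i = b j) := by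
      rw [mem_sdiff] at hj
      rw [mem_filter, mem_sdiff]
      exact ⟨⟨hJ hj.1, hj.2⟩, rfl⟩
    have h1 : (r j : ℝ) ^ 2 ≤ X r ((I \ Top).filter (fun i => b i = b j)) :=
      single_le_sum (f := fun i => (r i : ℝ) ^ 2) (fun _ _ => sq_nonneg _) hjI
    exact h1.trans ((hbins s0 (b j)).trans (hXu.trans huI))
  have hcore := core hσ hβ r Sg (P r u) (J \ Top) D hDcard hJσ (fun s hs => ⟨hβle s, by
    rw [hσ2]
    exact (hmax s (hDclean s hs)).trans (hXu.trans huI)⟩)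
  have hXu_σ : X r u ≤ σ ^ 2 := by rw [hσ2]; exact huI
  have hPu := NW_P_le hσ r u hXupos hXu_σ
  have hZ0 : 0 ≤ ∏ j ∈ J \ Top, (9000 * (r j : ℝ) ^ 2 / β) :=
    prod_nonneg fun j _ => by positivity
  have hbound : ∀ k, W σ k * |((∏ j ∈ J \ Top, (1 - U (r j))) * P r I').coeff k| ≤
      (∏ j ∈ J \ Top, (9000 * (r j : ℝ) ^ 2 / β)) * (20 / √(X r u)) := by
    intro k
    refine (W_coeff_le hσ _ k).trans ?_
    rw [hP, ← mul_assoc (∏ j ∈ J \ Top, (1 - U (r j)))]
    exact hcore.trans (mul_le_mul_of_nonneg_left hPu hZ0)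
  have hNF := NF_W_le hσ hbound hF hB0 hB
  have hq0 : 0 < √(X r u) := Real.sqrt_pos.2 hXupos
  have hq2 : √(X r u) ^ 2 = X r u := Real.sq_sqrt hXupos.le
  have hσq : σ ≤ (2 * m + 1) * √(X r u) := by
    have h1 : σ ^ 2 ≤ ((2 * m + 1) * √(X r u)) ^ 2 := by
      rw [hσ2, mul_pow, hq2, hX]
      have h2 : (0 : ℝ) ≤ m := by positivity
      nlinarith [mul_nonneg h2 hXupos.le, mul_nonneg (mul_nonneg h2 h2) hXupos.le]
    exact (abs_le_of_sq_le_sq' h1 (by positivity)).2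
  have hZ : ∏ j ∈ J \ Top, (9000 * (r j : ℝ) ^ 2 / β) ≤
      (9000 * (3 * m + 1)) ^ m * ∏ j ∈ J \ Top, ((r j : ℝ) ^ 2 / X r (I \ Top)) := by
    have h1 : ∀ j ∈ J \ Top, 9000 * (r j : ℝ) ^ 2 / β =
        (9000 * (3 * m + 1)) * ((r j : ℝ) ^ 2 / X r (I \ Top)) := by
      intro j _
      rw [hβdef]
      field_simp
    rw [prod_congr rfl h1, prod_mul_distrib, prod_const]
    refine mul_le_mul_of_nonneg_right ?_ hprod0
    refine pow_le_pow_right₀ ?_ hJ'card
    have : (0 : ℝ) ≤ m := by positivity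
    linarith
  refine hNF.trans ?_
  set Z := ∏ j ∈ J \ Top, (9000 * (r j : ℝ) ^ 2 / β)
  set Y := ∏ j ∈ J \ Top, ((r j : ℝ) ^ 2 / X r (I \ Top))
  have h1 : 3 * σ * (Z * (20 / √(X r u))) ≤ 60 * (2 * m + 1) * Z := by
    have h2 : 3 * σ * (Z * (20 / √(X r u))) = 60 * Z * (σ / √(X r u)) := by
      field_simp
      ring
    have h3 : σ / √(X r u) ≤ 2 * m + 1 := by rwa [div_le_iff₀ hq0]
    rw [h2]
    calc 60 * Z * (σ / √(X r u)) ≤ 60 * Z * (2 * m + 1) :=
          mul_le_mul_of_nonneg_left h3 (by positivity)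
      _ = _ := by ring
  calc 3 * σ * (Z * (20 / √(X r u))) * B ≤ 60 * (2 * m + 1) * Z * B :=
        mul_le_mul_of_nonneg_right h1 hB0
    _ ≤ 60 * (2 * m + 1) * ((9000 * (3 * m + 1)) ^ m * Y) * B := by
        refine mul_le_mul_of_nonneg_right ?_ hB0
        exact mul_le_mul_of_nonneg_left hZ (by positivity)
    _ = KB m * B * Y := by
        unfold KB
        ring

omit hF hB0 hB in
/-- The term of a choice `J`. -/
noncomputable def tm {ι : Type*} [DecidableEq ι] (I J : Finset ι) (r : ι → ℕ) : A :=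
  (∏ j ∈ J, (1 - U (r j))) * P r (I \ J)

lemma claimA {ι : Type*} [DecidableEq ι] (m : ℕ) (I J Top : Finset ι) (r : ι → ℕ)
    (b : ι → Fin (3 * m + 1))
    (hbins : ∀ s s' : Fin (3 * m + 1), X r ((I \ Top).filter (fun i => b i = s')) ≤
      X r (I.filter (fun i => b i = s)))
    (hJ : J ⊆ I) (hm : J.card ≤ m) :
    NF F (tm I J r) ≤
      2 ^ m * (KB m * B) * ∏ j ∈ J \ Top, ((r j : ℝ) ^ 2 / X r (I \ Top)) := by
  have hKB := KB_ge_one m
  have hprod0 : 0 ≤ ∏ j ∈ J \ Top, ((r j : ℝ) ^ 2 / X r (I \ Top)) :=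
    prod_nonneg fun j _ => div_nonneg (sq_nonneg _) (X_nonneg _ _)
  have h1 : ∏ j ∈ J, (1 - U (r j)) = (∏ j ∈ J \ Top, (1 - U (r j))) *
      ∏ j ∈ J ∩ Top, (1 - U (r j)) := by
    rw [mul_comm]
    exact (prod_inter_mul_prod_sdiff J Top _).symm
  have h2 : ∏ j ∈ J ∩ Top, (1 - U (r j)) =
      ∑ t ∈ (J ∩ Top).powerset, (-1) ^ t.card * P r t := by
    have h3 := prod_add (fun j => -U (r j)) (fun _ => (1 : A)) (J ∩ Top)
    have h4 : ∏ j ∈ J ∩ Top, (1 - U (r j)) = ∏ j ∈ J ∩ Top, (-U (r j) + 1) :=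
      prod_congr rfl fun j _ => by ring
    rw [h4, h3]
    refine sum_congr rfl fun t _ => ?_
    rw [prod_const_one, mul_one]
    unfold P
    rw [prod_neg]
  have h3 : tm I J r = ∑ t ∈ (J ∩ Top).powerset, (-1) ^ t.card *
      ((∏ j ∈ J \ Top, (1 - U (r j))) * P r ((I \ J) ∪ t)) := by
    unfold tm
    rw [h1, h2, mul_assoc, Finset.sum_mul, Finset.mul_sum]
    refine sum_congr rfl fun t ht => ?_
    have hd : Disjoint (I \ J) t := by
      rw [disjoint_left]
      intro i hi hit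
      exact (mem_sdiff.1 hi).2 (mem_inter.1 (mem_powerset.1 ht hit)).1
    have h5 : P r ((I \ J) ∪ t) = P r (I \ J) * P r t := prod_union hd
    rw [h5]
    ring
  rw [h3]
  refine (NF_sum_le hF _ _).trans ?_
  have h4 : ∀ t ∈ (J ∩ Top).powerset, NF F ((-1) ^ t.card *
      ((∏ j ∈ J \ Top, (1 - U (r j))) * P r ((I \ J) ∪ t))) ≤
      KB m * B * ∏ j ∈ J \ Top, ((r j : ℝ) ^ 2 / X r (I \ Top)) := by
    intro t ht
    have h5 := claimB hF hB0 hB m I J Top t r b hbins hJ hm (mem_powerset.1 ht)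
    rcases neg_one_pow_eq_or A t.card with h | h
    · rw [h, one_mul]; exact h5
    · rw [h, neg_one_mul, NF_neg]; exact h5
  refine (sum_le_sum h4).trans ?_
  rw [sum_const, card_powerset, nsmul_eq_mul]
  push_cast
  rw [mul_assoc (2 ^ m : ℝ)]
  refine mul_le_mul_of_nonneg_right ?_ (mul_nonneg (mul_nonneg (by linarith) hB0) hprod0)
  exact pow_le_pow_right₀ (by norm_num) ((card_le_card inter_subset_left).trans hm)

omit hF hB0 hB in
/-- The constant of the deterministic bound. -/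
noncomputable def KD (m : ℕ) : ℝ := 2 ^ m * KB m * (2 ^ (3 * m + 1) * 3)

omit hF hB0 hB in
lemma KD_pos (m : ℕ) : 0 < KD m := by
  unfold KD
  have := KB_ge_one m
  positivity

/-- The deterministic bound. -/
theorem det_bound {ι : Type*} [DecidableEq ι] (m : ℕ) (I : Finset ι) (r : ι → ℕ) :
    ∑ J ∈ I.powersetCard m, NF F (tm I J r) ≤ KD m * B := by
  obtain ⟨b, Top, hTop, hTcard, hbins⟩ := bins (3 * m + 1) (by omega) (fun i => (r i : ℝ) ^ 2)
    (fun i => sq_nonneg _) I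
  have hKB := KB_ge_one m
  set y : ι → ℝ := fun i => if i ∈ Top then 1 else (r i : ℝ) ^ 2 / X r (I \ Top) with hy
  have hy0 : ∀ i, 0 ≤ y i := by
    intro i
    rw [hy]
    beta_reduce
    split_ifs
    · norm_num
    · exact div_nonneg (sq_nonneg _) (X_nonneg _ _)
  have h1 : ∀ J ∈ I.powersetCard m, NF F (tm I J r) ≤ 2 ^ m * (KB m * B) * ∏ j ∈ J, y j := by
    intro J hJ
    rw [mem_powersetCard] at hJ
    have h2 := claimA hF hB0 hB m I J Top r b hbins hJ.1 hJ.2.le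
    have h3 : ∏ j ∈ J, y j = ∏ j ∈ J \ Top, ((r j : ℝ) ^ 2 / X r (I \ Top)) := by
      rw [← prod_inter_mul_prod_sdiff J Top y]
      have h4 : ∏ j ∈ J ∩ Top, y j = 1 := prod_eq_one fun j hj => by
        rw [hy]
        beta_reduce
        rw [if_pos (mem_inter.1 hj).2]
      rw [h4, one_mul]
      refine prod_congr rfl fun j hj => ?_
      rw [hy]
      beta_reduce
      rw [if_neg (mem_sdiff.1 hj).2]
    rw [h3]
    exact h2
  refine (sum_le_sum h1).trans ?_
  rw [← Finset.mul_sum]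
  have h2 : ∑ J ∈ I.powersetCard m, ∏ j ∈ J, y j ≤ ∏ i ∈ I, (y i + 1) := by
    rw [prod_add_one]
    refine sum_le_sum_of_subset_of_nonneg ?_ fun J _ _ => prod_nonneg fun j _ => hy0 j
    intro J hJ
    exact mem_powerset.2 (mem_powersetCard.1 hJ).1
  have h3 : ∏ i ∈ I, (y i + 1) ≤ 2 ^ (3 * m + 1) * 3 := by
    rw [← prod_sdiff hTop]
    rw [mul_comm]
    have h4 : ∏ i ∈ Top, (y i + 1) ≤ 2 ^ (3 * m + 1) := by
      have h5 : ∏ i ∈ Top, (y i + 1) = 2 ^ Top.card := by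
        rw [← prod_const]
        refine prod_congr rfl fun i hi => ?_
        rw [hy]
        beta_reduce
        rw [if_pos hi]
        norm_num
      rw [h5]
      exact pow_le_pow_right₀ (by norm_num) hTcard
    have h6 : ∏ i ∈ I \ Top, (y i + 1) ≤ 3 := by
      have h7 : ∏ i ∈ I \ Top, (y i + 1) ≤ ∏ i ∈ I \ Top, Real.exp (y i) :=
        prod_le_prod (fun i _ => by have := hy0 i; linarith) fun i _ => Real.add_one_le_exp _
      refine h7.trans ?_
      rw [← Real.exp_sum]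
      have h8 : ∑ i ∈ I \ Top, y i ≤ 1 := by
        have h9 : ∑ i ∈ I \ Top, y i = (∑ i ∈ I \ Top, (r i : ℝ) ^ 2) / X r (I \ Top) := by
          rw [sum_div]
          refine sum_congr rfl fun i hi => ?_
          rw [hy]
          beta_reduce
          rw [if_neg (mem_sdiff.1 hi).2]
        rw [h9]
        exact div_self_le_one _
      have h10 := Real.exp_le_exp.2 h8
      have h11 := Real.exp_one_lt_d9
      linarith
    exact mul_le_mul h4 h6 (prod_nonneg fun i _ => by have := hy0 i; linarith) (by positivity)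
  calc 2 ^ m * (KB m * B) * ∑ J ∈ I.powersetCard m, ∏ j ∈ J, y j ≤
        2 ^ m * (KB m * B) * (2 ^ (3 * m + 1) * 3) := by
        refine mul_le_mul_of_nonneg_left (h2.trans h3) ?_
        exact mul_nonneg (by positivity) (mul_nonneg (by linarith) hB0)
    _ = KD m * B := by
        unfold KD
        ring

end

end Pool.Agent.V8H24.MX
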