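import Pool.Agent.V8H24.MX.Mix

/-!
Transfer to all symmetric non-increasing probability measures, and the covering lemma.
-/

set_option autoImplicit false

namespace Pool.Agent.V8H24.MX

open Finset Filter Topology Pool.Agent.R248.Ritt

/-- The covering lemma. -/
lemma cover (F : ℤ → ℝ) (hF : ∀ k, 0 ≤ F k) (r : ℤ → ℕ) (B : ℝ) (hB : 0 ≤ B) (E : Finset ℤ) :
    (∀ k ∈ E, (2 * (r k : ℝ) + 1) * B ≤ ∑ j ∈ Icc (k - r k) (k + r k), F j) →
    B * (E.card : ℝ) ≤ 2 * ∑ j ∈ E.biUnion (fun k => Icc (k - r k) (k + r k)), F j := by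
  induction E using Finset.strongInduction with
  | H E ih =>
    intro h
    rcases E.eq_empty_or_nonempty with hE | hE
    · subst hE
      simp
    · obtain ⟨l, hl, hmax⟩ := Finset.exists_max_image E r hE
      set E1 := E.filter (fun k => |k - l| ≤ 2 * (r l : ℤ)) with hE1
      set E2 := E.filter (fun k => ¬ |k - l| ≤ 2 * (r l : ℤ)) with hE2
      have hlE2 : l ∉ E2 := by
        rw [hE2, mem_filter]
        rintro ⟨-, h1⟩
        apply h1
        rw [sub_self, abs_zero]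
        positivity
      have hE2E : E2 ⊂ E := by
        refine Finset.ssubset_iff_subset_ne.2 ⟨filter_subset _ _, fun h1 => hlE2 (h1 ▸ hl)⟩
      have h2 := ih E2 hE2E (fun k hk => h k (filter_subset _ _ hk))
      have hcard : E.card = E1.card + E2.card := (card_filter_add_card_filter_not _).symm
      have h3 : (E1.card : ℝ) ≤ 4 * (r l : ℝ) + 1 := by
        have h4 : E1 ⊆ Icc (l - 2 * (r l : ℤ)) (l + 2 * (r l : ℤ)) := by
          intro k hk
          rw [hE1, mem_filter, abs_le] at hk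
          rw [mem_Icc]
          constructor <;> omega
        have h5 := card_le_card h4
        rw [Int.card_Icc] at h5
        have h6 : E1.card ≤ 4 * r l + 1 := by omega
        exact_mod_cast h6
      have h4 : B * (E1.card : ℝ) ≤ 2 * ∑ j ∈ Icc (l - r l) (l + r l), F j := by
        have h5 := h l hl
        have h6 := mul_le_mul_of_nonneg_left h3 hB
        nlinarith
      have hd : Disjoint (Icc (l - r l) (l + r l))
          (E2.biUnion (fun k => Icc (k - r k) (k + r k))) := by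
        rw [disjoint_left]
        intro j hj hj2
        obtain ⟨k, hk, hjk⟩ := mem_biUnion.1 hj2
        rw [hE2, mem_filter, abs_le] at hk
        have h7 := hmax k hk.1
        rw [mem_Icc] at hj hjk
        apply hk.2
        constructor <;> omega
      have h5 : ∑ j ∈ Icc (l - r l) (l + r l), F j +
          ∑ j ∈ E2.biUnion (fun k => Icc (k - r k) (k + r k)), F j ≤
          ∑ j ∈ E.biUnion (fun k => Icc (k - r k) (k + r k)), F j := by
        rw [← sum_union hd]
        refine sum_le_sum_of_subset_of_nonneg ?_ fun j _ _ => hF j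
        intro j hj
        rcases mem_union.1 hj with hj | hj
        · exact mem_biUnion.2 ⟨l, hl, hj⟩
        · obtain ⟨k, hk, hjk⟩ := mem_biUnion.1 hj
          exact mem_biUnion.2 ⟨k, filter_subset _ _ hk, hjk⟩
      rw [hcard]
      push_cast
      linarith

/-- The unit mass minus `μ`. -/
noncomputable def dm (μ : ℤ → ℝ) (k : ℤ) : ℝ := (if k = 0 then 1 else 0) - μ k

/-- The truncated version of `δ - μ`. -/
noncomputable def dR (μ : ℤ → ℝ) (R : ℕ) : A := sR μ R • (1 : A) - mR μ R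

section

variable {μ : ℤ → ℝ} (h0 : ∀ k, 0 ≤ μ k) (h1 : HasSum μ 1) (hs : ∀ k, μ (-k) = μ k)
  (ha : ∀ n : ℕ, μ (n + 1) ≤ μ n)

lemma coeff_dR (R : ℕ) (k : ℤ) :
    (dR μ R).coeff k = sR μ R * (if k = 0 then 1 else 0) - (mR μ R).coeff k := by
  unfold dR
  rw [AddMonoidAlgebra.coeff_sub, Finsupp.sub_apply, AddMonoidAlgebra.coeff_smul_apply,
    smul_eq_mul, coeff_one]

include h0 h1 hs ha in
lemma tendsto_coeff_dR (k : ℤ) : Tendsto (fun R : ℕ => (dR μ R).coeff k) atTop (𝓝 (dm μ k)) := by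
  simp only [coeff_dR]
  have := ((tendsto_sR h0 h1 hs ha).mul_const (if k = 0 then (1 : ℝ) else 0)).sub
    (tendsto_coeff_mR h1 hs k)
  rw [one_mul] at this
  exact this

include h0 h1 hs ha in
lemma abs_coeff_dR_le (R : ℕ) (k : ℤ) :
    |(dR μ R).coeff k| ≤ (if k = 0 then 1 else 0) + μ k := by
  rw [coeff_dR]
  have a1 := sR_le_one h0 h1 hs R
  have a2 := sR_nonneg ha R
  have a3 := coeff_mR_nonneg ha R k
  have a4 := coeff_mR_le h0 hs R k
  split_ifs with hk
  · rw [abs_le]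
    constructor <;> linarith
  · rw [abs_le]
    constructor <;> linarith

include h0 h1 hs ha in
lemma N1_dR_le (R : ℕ) : N1 (dR μ R) ≤ 2 := by
  unfold dR
  rw [sub_eq_add_neg]
  refine (N1_add_le _ _).trans ?_
  rw [N1_neg, N1_smul, N1_one, mul_one, abs_of_nonneg (sR_nonneg ha R)]
  have a1 := sR_le_one h0 h1 hs R
  have a2 := N1_mR_le ha R
  linarith

lemma N1_pow_le {f : A} {c : ℝ} (hf : N1 f ≤ c) (m : ℕ) : N1 (f ^ m) ≤ c ^ m := by
  have hc : 0 ≤ c := (N1_nonneg f).trans hf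
  induction m with
  | zero => rw [pow_zero, pow_zero, N1_one]
  | succ m ih =>
    rw [pow_succ, pow_succ]
    exact (N1_mul_le _ _).trans (mul_le_mul ih hf (N1_nonneg _) (by positivity))

include h0 h1 hs ha in
lemma tendsto_coeff_dR_pow (m : ℕ) (k : ℤ) :
    Tendsto (fun R : ℕ => (dR μ R ^ m).coeff k) atTop (𝓝 (cvPow (dm μ) m k)) := by
  induction m generalizing k with
  | zero =>
    simp only [pow_zero, coeff_one, cvPow]
    exact tendsto_const_nhds
  | succ m ih =>
    simp_rw [pow_succ', coeff_mul]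
    refine tendsto_tsum_of_dominated_convergence
      (bound := fun j => ((if j = 0 then 1 else 0) + μ j) * 2 ^ m) ?_ ?_ ?_
    · refine Summable.mul_right _ (Summable.add ?_ h1.summable)
      exact summable_of_ne_finset_zero (s := {0}) fun y hy => by
        rw [if_neg (by simpa using hy)]
    · intro j
      exact (tendsto_coeff_dR h0 h1 hs ha j).mul (ih (k - j))
    · refine Eventually.of_forall fun R j => ?_
      rw [Real.norm_eq_abs, abs_mul]
      have h3 : |(dR μ R ^ m).coeff (k - j)| ≤ 2 ^ m :=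
        (abs_coeff_le _ _).trans (N1_pow_le (N1_dR_le h0 h1 hs ha R) m)
      exact mul_le_mul (abs_coeff_dR_le h0 h1 hs ha R j) h3 (abs_nonneg _) (by
        have := h0 j
        split_ifs <;> linarith)

include ha in
lemma coeff_mR_pow_nonneg (R n : ℕ) (k : ℤ) : 0 ≤ (mR μ R ^ n).coeff k := by
  induction n generalizing k with
  | zero =>
    rw [pow_zero, coeff_one]
    split_ifs <;> norm_num
  | succ n ih =>
    rw [pow_succ', coeff_mul]
    exact tsum_nonneg fun j => mul_nonneg (coeff_mR_nonneg ha R j) (ih _)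

include h0 h1 hs ha in
lemma cvPow_bounds (n : ℕ) (k : ℤ) : 0 ≤ cvPow μ n k ∧ cvPow μ n k ≤ 1 := by
  constructor
  · exact ge_of_tendsto' (tendsto_coeff_pow h0 h1 hs ha n k) fun R =>
      coeff_mR_pow_nonneg ha R n k
  · refine le_of_tendsto' (tendsto_coeff_pow h0 h1 hs ha n k) fun R => ?_
    exact (le_abs_self _).trans ((abs_coeff_le _ _).trans (N1_mR_pow_le h0 h1 hs ha R n))

include h0 h1 hs ha in
lemma summable_cvPow (n : ℕ) : Summable (cvPow μ n) := by
  refine summable_of_sum_le (c := 1) (fun k => (cvPow_bounds h0 h1 hs ha n k).1) fun s => ?_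
  have h2 : Tendsto (fun R : ℕ => ∑ k ∈ s, (mR μ R ^ n).coeff k) atTop
      (𝓝 (∑ k ∈ s, cvPow μ n k)) :=
    tendsto_finsetSum _ fun k _ => tendsto_coeff_pow h0 h1 hs ha n k
  refine le_of_tendsto' h2 fun R => ?_
  have h3 : ∑ k ∈ s, (mR μ R ^ n).coeff k ≤ ∑ k ∈ s, |(mR μ R ^ n).coeff k| :=
    sum_le_sum fun k _ => le_abs_self _
  have h4 : ∑ k ∈ s, |(mR μ R ^ n).coeff k| ≤ N1 (mR μ R ^ n) :=
    (summ _).sum_le_tsum _ fun _ _ => abs_nonneg _
  exact h3.trans (h4.trans (N1_mR_pow_le h0 h1 hs ha R n))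

include h0 h1 hs ha in
lemma coeff_mR_pow_le (R n : ℕ) (k : ℤ) : (mR μ R ^ n).coeff k ≤ cvPow μ n k := by
  induction n generalizing k with
  | zero => rw [pow_zero, coeff_one]; rfl
  | succ n ih =>
    rw [pow_succ', coeff_mul]
    show _ ≤ ∑' j : ℤ, μ j * cvPow μ n (k - j)
    have hs1 : Summable fun j : ℤ => μ j * cvPow μ n (k - j) := by
      refine Summable.of_nonneg_of_le (fun j => ?_) (fun j => ?_) h1.summable
      · exact mul_nonneg (h0 j) (cvPow_bounds h0 h1 hs ha n _).1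
      · exact mul_le_of_le_one_right (h0 j) (cvPow_bounds h0 h1 hs ha n _).2
    have hle : ∀ j : ℤ, (mR μ R).coeff j * (mR μ R ^ n).coeff (k - j) ≤
        μ j * cvPow μ n (k - j) := fun j =>
      mul_le_mul (coeff_mR_le h0 hs R j) (ih _) (coeff_mR_pow_nonneg ha R n _) (h0 j)
    have hs2 : Summable fun j : ℤ => (mR μ R).coeff j * (mR μ R ^ n).coeff (k - j) :=
      Summable.of_nonneg_of_le (fun j => mul_nonneg (coeff_mR_nonneg ha R j)
        (coeff_mR_pow_nonneg ha R n _)) hle hs1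
    exact hs2.tsum_le_tsum hle hs1

include h0 h1 hs ha in
lemma tendsto_coeff_ker (n m : ℕ) (k : ℤ) :
    Tendsto (fun R : ℕ => (dR μ R ^ m * mR μ R ^ n).coeff k) atTop
      (𝓝 (cv (cvPow μ n) (cvPow (dm μ) m) k)) := by
  simp_rw [mul_comm (dR μ _ ^ m), coeff_mul]
  refine tendsto_tsum_of_dominated_convergence (bound := fun j => cvPow μ n j * 2 ^ m) ?_ ?_ ?_
  · exact (summable_cvPow h0 h1 hs ha n).mul_right _
  · intro j
    exact (tendsto_coeff_pow h0 h1 hs ha n j).mul (tendsto_coeff_dR_pow h0 h1 hs ha m (k - j))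
  · refine Eventually.of_forall fun R j => ?_
    rw [Real.norm_eq_abs, abs_mul, abs_of_nonneg (coeff_mR_pow_nonneg ha R n j)]
    have h3 : |(dR μ R ^ m).coeff (k - j)| ≤ 2 ^ m :=
      (abs_coeff_le _ _).trans (N1_pow_le (N1_dR_le h0 h1 hs ha R) m)
    exact mul_le_mul (coeff_mR_pow_le h0 h1 hs ha R n j) h3 (abs_nonneg _)
      (cvPow_bounds h0 h1 hs ha n j).1

include h0 h1 hs ha in
lemma N1_ker_le (R n m : ℕ) : N1 (dR μ R ^ m * mR μ R ^ n) ≤ 2 ^ m := by
  refine (N1_mul_le _ _).trans ?_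
  calc N1 (dR μ R ^ m) * N1 (mR μ R ^ n) ≤ 2 ^ m * 1 :=
        mul_le_mul (N1_pow_le (N1_dR_le h0 h1 hs ha R) m) (N1_mR_pow_le h0 h1 hs ha R n)
          (N1_nonneg _) (by positivity)
    _ = 2 ^ m := mul_one _

lemma norm_act_le (g : A) (f : ℤ → ℂ) (k : ℤ) :
    ‖∑' j : ℤ, ((g.coeff j : ℝ) : ℂ) * f (k - j)‖ ≤ NF (fun j => ‖f (k - j)‖) g := by
  have h1 : ∀ j : ℤ, ‖((g.coeff j : ℝ) : ℂ) * f (k - j)‖ = |g.coeff j| * ‖f (k - j)‖ := by
    intro j
    rw [norm_mul, Complex.norm_real, Real.norm_eq_abs]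
  have h2 : Summable fun j : ℤ => ‖((g.coeff j : ℝ) : ℂ) * f (k - j)‖ := by
    simp only [h1]
    exact summF (fun j => ‖f (k - j)‖) g
  refine (norm_tsum_le_tsum_norm h2).trans (le_of_eq ?_)
  simp only [h1]
  rfl

include h0 h1 hs ha in
/-- The pointwise bound. -/
theorem pointwise (f : ℤ → ℂ) (hf : Summable fun k => ‖f k‖) (n m : ℕ) (k : ℤ) (B : ℝ)
    (hB0 : 0 ≤ B)
    (hB : ∀ R : ℕ, ∑ j ∈ Icc (-(R : ℤ)) (R : ℤ), ‖f (k - j)‖ ≤ (2 * (R : ℝ) + 1) * B) :
    (n : ℝ) ^ m * ‖∑' j : ℤ, ((cv (cvPow μ n) (cvPow (dm μ) m) j : ℝ) : ℂ) * f (k - j)‖ ≤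
      (m.factorial : ℝ) * KD m * B := by
  have hlim : Tendsto (fun R : ℕ => (n : ℝ) ^ m *
      ‖∑' j : ℤ, (((dR μ R ^ m * mR μ R ^ n).coeff j : ℝ) : ℂ) * f (k - j)‖) atTop
      (𝓝 ((n : ℝ) ^ m *
        ‖∑' j : ℤ, ((cv (cvPow μ n) (cvPow (dm μ) m) j : ℝ) : ℂ) * f (k - j)‖)) := by
    refine Tendsto.const_mul _ (Tendsto.norm ?_)
    refine tendsto_tsum_of_dominated_convergence (bound := fun j => 2 ^ m * ‖f (k - j)‖) ?_ ?_ ?_
    · refine Summable.mul_left _ ?_
      exact (Equiv.subLeft k).summable_iff.2 hf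
    · intro j
      refine Tendsto.mul_const _ ?_
      exact (Complex.continuous_ofReal.tendsto _).comp (tendsto_coeff_ker h0 h1 hs ha n m j)
    · refine Eventually.of_forall fun R j => ?_
      rw [norm_mul, Complex.norm_real, Real.norm_eq_abs]
      exact mul_le_mul_of_nonneg_right
        ((abs_coeff_le _ _).trans (N1_ker_le h0 h1 hs ha R n m)) (norm_nonneg _)
  refine le_of_tendsto' hlim fun R => ?_
  have h2 := norm_act_le (dR μ R ^ m * mR μ R ^ n) f k
  have h3 := mix_bound' (F := fun j => ‖f (k - j)‖) (fun j => norm_nonneg _) hB0 hB (pw μ)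
    (pw_nonneg ha) R n m (sR_le_one h0 h1 hs R)
  exact (mul_le_mul_of_nonneg_left h2 (by positivity)).trans h3

end

end Pool.Agent.V8H24.MX
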