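import Pool.Agent.V8H24.MX.Core

/-!
Sums against symmetric decreasing majorants are controlled by the centred averages.
-/

set_option autoImplicit false

namespace Pool.Agent.V8H24.MX

open Finset Pool.Agent.R248.Ritt

lemma sum_Icc_succ (φ : ℤ → ℝ) (N : ℕ) :
    ∑ k ∈ Icc (-((N + 1 : ℕ) : ℤ)) ((N + 1 : ℕ) : ℤ), φ k =
      ∑ k ∈ Icc (-(N : ℤ)) (N : ℤ), φ k + φ (((N + 1 : ℕ) : ℤ)) + φ (-((N + 1 : ℕ) : ℤ)) := by
  have h : Icc (-((N + 1 : ℕ) : ℤ)) ((N + 1 : ℕ) : ℤ) =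
      insert (((N + 1 : ℕ) : ℤ)) (insert (-((N + 1 : ℕ) : ℤ)) (Icc (-(N : ℤ)) (N : ℤ))) := by
    ext k
    simp only [mem_Icc, mem_insert]
    push_cast
    omega
  rw [h, sum_insert, sum_insert]
  · ring
  · simp
  · simp only [mem_insert, mem_Icc]
    push_cast
    omega

lemma abel_maj (M : ℕ → ℝ) (anti : ∀ n, M (n + 1) ≤ M n)
    (F : ℤ → ℝ) (B : ℝ)
    (hB : ∀ R : ℕ, ∑ j ∈ Icc (-(R : ℤ)) (R : ℤ), F j ≤ (2 * (R : ℝ) + 1) * B) (N : ℕ) :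
    ∑ k ∈ Icc (-(N : ℤ)) (N : ℤ), M k.natAbs * F k +
      M N * ((2 * (N : ℝ) + 1) * B - ∑ k ∈ Icc (-(N : ℤ)) (N : ℤ), F k) ≤
      B * ∑ k ∈ Icc (-(N : ℤ)) (N : ℤ), M k.natAbs := by
  induction N with
  | zero =>
    simp
    linarith
  | succ N ih =>
    rw [sum_Icc_succ, sum_Icc_succ, sum_Icc_succ]
    rw [Int.natAbs_neg, Int.natAbs_natCast]
    have h1 := anti N
    have h2 := hB N
    push_cast at ih ⊢
    set S := ∑ k ∈ Icc (-(N : ℤ)) (N : ℤ), M k.natAbs * F k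
    set T' := ∑ k ∈ Icc (-(N : ℤ)) (N : ℤ), F k
    set C := ∑ k ∈ Icc (-(N : ℤ)) (N : ℤ), M k.natAbs
    have h3 := mul_le_mul_of_nonneg_right h1 (sub_nonneg.2 h2)
    nlinarith

lemma abel_maj' (M : ℕ → ℝ) (h0 : ∀ n, 0 ≤ M n) (anti : ∀ n, M (n + 1) ≤ M n)
    (F : ℤ → ℝ) (B : ℝ)
    (hB : ∀ R : ℕ, ∑ j ∈ Icc (-(R : ℤ)) (R : ℤ), F j ≤ (2 * (R : ℝ) + 1) * B) (N : ℕ) :
    ∑ k ∈ Icc (-(N : ℤ)) (N : ℤ), M k.natAbs * F k ≤
      B * ∑ k ∈ Icc (-(N : ℤ)) (N : ℤ), M k.natAbs := by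
  have h1 := abel_maj M anti F B hB N
  have h2 := mul_nonneg (h0 N) (sub_nonneg.2 (hB N))
  linarith

lemma exists_supp (f : A) : ∃ N : ℕ, ∀ k ∉ Icc (-(N : ℤ)) (N : ℤ), f.coeff k = 0 := by
  obtain ⟨N, hN⟩ := (f.coeff.support.image Int.natAbs).exists_le
  refine ⟨N, fun k hk => ?_⟩
  by_contra h
  have := hN k.natAbs (Finset.mem_image.2 ⟨k, Finsupp.mem_support_iff.2 h, rfl⟩)
  apply hk
  rw [mem_Icc]
  omega

lemma NF_SU_le {f : A} (h : SU f) (h1 : N1 f ≤ 1) (F : ℤ → ℝ) (B : ℝ) (hB0 : 0 ≤ B)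
    (hB : ∀ R : ℕ, ∑ j ∈ Icc (-(R : ℤ)) (R : ℤ), F j ≤ (2 * (R : ℝ) + 1) * B) :
    NF F f ≤ B := by
  obtain ⟨N, hN⟩ := exists_supp f
  have e : ∀ k : ℤ, |f.coeff k| = f.coeff (k.natAbs : ℤ) := by
    intro k
    rw [abs_of_nonneg (h.nonneg k)]
    rcases Int.natAbs_eq k with hk | hk
    · rw [← hk]
    · conv_lhs => rw [hk]
      rw [h.symm]
  have h2 : NF F f = ∑ k ∈ Icc (-(N : ℤ)) (N : ℤ), f.coeff (k.natAbs : ℤ) * F k := by
    unfold NF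
    rw [tsum_eq_sum (s := Icc (-(N : ℤ)) (N : ℤ)) (fun k hk => by
      rw [hN k hk, abs_zero, zero_mul])]
    exact sum_congr rfl fun k _ => by rw [e]
  rw [h2]
  refine (abel_maj' (fun n => f.coeff (n : ℤ)) (fun n => h.nonneg _) (fun n => by
    have := h.anti n (by positivity)
    push_cast
    exact this) F B hB N).trans ?_
  have h3 : ∑ k ∈ Icc (-(N : ℤ)) (N : ℤ), f.coeff (k.natAbs : ℤ) ≤ N1 f := by
    have h4 : ∑ k ∈ Icc (-(N : ℤ)) (N : ℤ), f.coeff (k.natAbs : ℤ) =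
        ∑ k ∈ Icc (-(N : ℤ)) (N : ℤ), |f.coeff k| := sum_congr rfl fun k _ => by rw [e]
    rw [h4]
    exact (summ f).sum_le_tsum _ fun _ _ => abs_nonneg _
  calc B * ∑ k ∈ Icc (-(N : ℤ)) (N : ℤ), f.coeff (k.natAbs : ℤ) ≤ B * 1 :=
        mul_le_mul_of_nonneg_left (h3.trans h1) hB0
    _ = B := mul_one B

lemma sum_inv_W_le {σ : ℝ} (hσ : 1 ≤ σ) (N : ℕ) :
    ∑ k ∈ Icc (-(N : ℤ)) (N : ℤ), ((1 + ((k.natAbs : ℕ) : ℝ) / σ) ^ 2)⁻¹ ≤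
      1 + 2 * σ - 2 * (σ ^ 2 / (σ + N)) := by
  have h0 : 0 < σ := by linarith
  induction N with
  | zero =>
    simp
    have : σ ^ 2 / σ = σ := by field_simp
    rw [this]
    linarith
  | succ N ih =>
    rw [sum_Icc_succ]
    rw [Int.natAbs_neg, Int.natAbs_natCast]
    have hN : (0 : ℝ) ≤ N := by positivity
    have h1 : ((1 + ((N + 1 : ℕ) : ℝ) / σ) ^ 2)⁻¹ ≤ σ ^ 2 / (σ + N) - σ ^ 2 / (σ + (N + 1 : ℕ)) := by
      push_cast
      have e1 : ((1 + ((N : ℝ) + 1) / σ) ^ 2)⁻¹ = σ ^ 2 / (σ + N + 1) ^ 2 := by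
        field_simp
        ring
      have e2 : σ ^ 2 / (σ + N) - σ ^ 2 / (σ + (N + 1)) = σ ^ 2 / ((σ + N) * (σ + N + 1)) := by
        have : σ + ((N : ℝ) + 1) ≠ 0 := by positivity
        have : σ + (N : ℝ) + 1 ≠ 0 := by positivity
        field_simp
        ring
      rw [e1, e2]
      refine div_le_div_of_nonneg_left (by positivity) (by positivity) ?_
      nlinarith
    linarith

lemma NF_W_le {σ : ℝ} (hσ : 1 ≤ σ) {g : A} {c : ℝ} (hg : ∀ k, W σ k * |g.coeff k| ≤ c)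
    {F : ℤ → ℝ} (hF : ∀ k, 0 ≤ F k) {B : ℝ} (hB0 : 0 ≤ B)
    (hB : ∀ R : ℕ, ∑ j ∈ Icc (-(R : ℤ)) (R : ℤ), F j ≤ (2 * (R : ℝ) + 1) * B) :
    NF F g ≤ 3 * σ * c * B := by
  have h0 : 0 < σ := by linarith
  obtain ⟨N, hN⟩ := exists_supp g
  have hc : 0 ≤ c := le_trans (mul_nonneg (W_nonneg hσ 0) (abs_nonneg _)) (hg 0)
  set M : ℕ → ℝ := fun n => ((1 + (n : ℝ) / σ) ^ 2)⁻¹ with hM
  have e : ∀ k : ℤ, W σ k = (M k.natAbs)⁻¹ := by
    intro k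
    rw [hM]
    beta_reduce
    rw [inv_inv]
    unfold W
    rw [Nat.cast_natAbs, Int.cast_abs]
  have hMpos : ∀ n, 0 < M n := fun n => by rw [hM]; positivity
  have h1 : ∀ k : ℤ, |g.coeff k| ≤ c * M k.natAbs := by
    intro k
    have := hg k
    rw [e] at this
    have h2 := hMpos k.natAbs
    rwa [inv_mul_le_iff₀ h2, mul_comm] at this
  have h2 : NF F g ≤ c * ∑ k ∈ Icc (-(N : ℤ)) (N : ℤ), M k.natAbs * F k := by
    unfold NF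
    rw [tsum_eq_sum (s := Icc (-(N : ℤ)) (N : ℤ)) (fun k hk => by
      rw [hN k hk, abs_zero, zero_mul]), Finset.mul_sum]
    refine sum_le_sum fun k _ => ?_
    rw [← mul_assoc]
    exact mul_le_mul_of_nonneg_right (h1 k) (hF k)
  have h3 := abel_maj' M (fun n => (hMpos n).le) (fun n => by
    rw [hM]
    beta_reduce
    refine inv_anti₀ (by positivity) ?_
    refine pow_le_pow_left₀ (by positivity) ?_ 2
    push_cast
    have : (n : ℝ) / σ ≤ ((n : ℝ) + 1) / σ := div_le_div_of_nonneg_right (by linarith) h0.le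
    linarith) F B hB N
  have h4 : ∑ k ∈ Icc (-(N : ℤ)) (N : ℤ), M k.natAbs ≤ 3 * σ := by
    refine (sum_inv_W_le hσ N).trans ?_
    have : 0 ≤ 2 * (σ ^ 2 / (σ + N)) := by positivity
    linarith
  calc NF F g ≤ c * (B * (3 * σ)) := by
        refine h2.trans (mul_le_mul_of_nonneg_left (h3.trans ?_) hc)
        exact mul_le_mul_of_nonneg_left h4 hB0
    _ = 3 * σ * c * B := by ring

end Pool.Agent.V8H24.MX
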