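import Pool.Agent.V8H24.MX.Det

/-!
The bound for finite mixtures of uniform measures.
-/

set_option autoImplicit false

namespace Pool.Agent.V8H24.MX

open Finset Pool.Agent.R248.Ritt

section

variable {F : ℤ → ℝ} (hF : ∀ k, 0 ≤ F k) {B : ℝ} (hB0 : 0 ≤ B)
    (hB : ∀ R : ℕ, ∑ j ∈ Icc (-(R : ℤ)) (R : ℤ), F j ≤ (2 * (R : ℝ) + 1) * B)

include hF hB0 hB

theorem mix_bound (p : ℕ → ℝ) (hp : ∀ j, 0 ≤ p j) (R n m : ℕ) :
    ((n + m).choose m : ℝ) * NF F (((∑ j ∈ range R, p j) • (1 : A) -
      ∑ j ∈ range R, p j • U j) ^ m * (∑ j ∈ range R, p j • U j) ^ n) ≤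
      KD m * B * (∑ j ∈ range R, p j) ^ (n + m) := by
  set s := ∑ j ∈ range R, p j with hs
  set M := ∑ j ∈ range R, p j • U j with hM
  have key : ∀ J ∈ (univ : Finset (Fin (n + m))).powersetCard m,
      NF F ((s • (1 : A) - M) ^ m * M ^ n) ≤
      ∑ x ∈ Fintype.piFinset (fun _ : Fin (n + m) => range R),
        (∏ l, p (x l)) * NF F (tm univ J x) := by
    intro J hJ
    rw [mem_powersetCard] at hJ
    have h1 : (s • (1 : A) - M) ^ m * M ^ n =
        ∏ l : Fin (n + m), ∑ j ∈ range R, p j • (if l ∈ J then 1 - U j else U j) := by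
      have h2 : ∀ l : Fin (n + m), (∑ j ∈ range R, p j • (if l ∈ J then 1 - U j else U j)) =
          if l ∈ J then s • (1 : A) - M else M := by
        intro l
        split_ifs
        · rw [hs, hM, Finset.sum_smul, ← sum_sub_distrib]
          exact sum_congr rfl fun j _ => by rw [smul_sub]
        · rfl
      simp only [h2]
      rw [prod_ite, prod_const, prod_const]
      congr 2
      · rw [filter_mem_eq_inter, univ_inter, hJ.2]
      · rw [filter_notMem_eq_sdiff, card_sdiff_of_subset hJ.1, hJ.2, card_univ, Fintype.card_fin]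
        omega
    rw [h1, prod_univ_sum]
    refine (NF_sum_le hF _ _).trans (sum_le_sum fun x _ => ?_)
    have h2 : ∏ l, (p (x l) • (if l ∈ J then 1 - U (x l) else U (x l)) : A) =
        (∏ l, p (x l)) • tm univ J x := by
      simp only [Algebra.smul_def]
      rw [prod_mul_distrib, ← map_prod]
      congr 1
      unfold tm P
      rw [prod_ite]
      congr 2
      · rw [filter_mem_eq_inter, univ_inter]
      · rw [filter_notMem_eq_sdiff]
    rw [h2, NF_smul, abs_of_nonneg (prod_nonneg fun l _ => hp _)]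
  have h3 : ((n + m).choose m : ℝ) * NF F ((s • (1 : A) - M) ^ m * M ^ n) =
      ∑ _J ∈ (univ : Finset (Fin (n + m))).powersetCard m, NF F ((s • (1 : A) - M) ^ m * M ^ n) := by
    rw [sum_const, card_powersetCard, card_univ, Fintype.card_fin, nsmul_eq_mul]
  rw [h3]
  refine (sum_le_sum fun J hJ => key J hJ).trans ?_
  rw [sum_comm]
  have h4 : ∀ x ∈ Fintype.piFinset (fun _ : Fin (n + m) => range R),
      ∑ J ∈ (univ : Finset (Fin (n + m))).powersetCard m, (∏ l, p (x l)) * NF F (tm univ J x) ≤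
        KD m * B * ∏ l, p (x l) := by
    intro x _
    rw [← Finset.mul_sum, mul_comm (KD m * B)]
    exact mul_le_mul_of_nonneg_left (det_bound hF hB0 hB m univ x)
      (prod_nonneg fun l _ => hp _)
  refine (sum_le_sum h4).trans (le_of_eq ?_)
  rw [← Finset.mul_sum, ← prod_univ_sum (fun _ : Fin (n + m) => range R) (fun _ j => p j)]
  simp [hs]

/-- The final form. -/
theorem mix_bound' (p : ℕ → ℝ) (hp : ∀ j, 0 ≤ p j) (R n m : ℕ) (h1 : ∑ j ∈ range R, p j ≤ 1) :
    (n : ℝ) ^ m * NF F (((∑ j ∈ range R, p j) • (1 : A) -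
      ∑ j ∈ range R, p j • U j) ^ m * (∑ j ∈ range R, p j • U j) ^ n) ≤
      (m.factorial : ℝ) * KD m * B := by
  have h2 := mix_bound hF hB0 hB p hp R n m
  set N := NF F (((∑ j ∈ range R, p j) • (1 : A) -
      ∑ j ∈ range R, p j • U j) ^ m * (∑ j ∈ range R, p j • U j) ^ n)
  have hN : 0 ≤ N := NF_nonneg hF _
  have h3 : (∑ j ∈ range R, p j) ^ (n + m) ≤ 1 :=
    pow_le_one₀ (sum_nonneg fun j _ => hp j) h1
  have h4 : ((n + m).choose m : ℝ) * N ≤ KD m * B := by
    refine h2.trans ?_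
    have := mul_le_mul_of_nonneg_left h3 (mul_nonneg (KD_pos m).le hB0)
    rwa [mul_one] at this
  have h5 : (n : ℝ) ^ m ≤ (m.factorial : ℝ) * ((n + m).choose m : ℝ) := by
    have h6 : n ^ m ≤ m.factorial * (n + m).choose m := by
      rw [← Nat.descFactorial_eq_factorial_mul_choose]
      refine le_trans ?_ (Nat.pow_sub_le_descFactorial (n + m) m)
      exact Nat.pow_le_pow_left (by omega) m
    exact_mod_cast h6
  calc (n : ℝ) ^ m * N ≤ (m.factorial : ℝ) * ((n + m).choose m : ℝ) * N :=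
        mul_le_mul_of_nonneg_right h5 hN
    _ = (m.factorial : ℝ) * (((n + m).choose m : ℝ) * N) := by ring
    _ ≤ (m.factorial : ℝ) * (KD m * B) := mul_le_mul_of_nonneg_left h4 (by positivity)
    _ = _ := by ring

end

end Pool.Agent.V8H24.MX
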