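import Pool.Agent.R248.Ritt.Trans

/-!
Weighted `ℓ¹` norms and moments on the convolution algebra of the integers.
-/

set_option autoImplicit false

namespace Pool.Agent.V8H24.MX

open Finset Pool.Agent.R248.Ritt

/-- The weighted sum of absolute values. -/
noncomputable def NF (F : ℤ → ℝ) (g : A) : ℝ := ∑' k, |g.coeff k| * F k

/-- The linear functional with weight `φ`. -/
noncomputable def Mo (φ : ℤ → ℝ) (g : A) : ℝ := ∑' k, g.coeff k * φ k

lemma summF (F : ℤ → ℝ) (g : A) : Summable fun k => |g.coeff k| * F k :=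
  summable_of_ne_finset_zero (s := g.coeff.support) fun _ hk => by
    rw [Finsupp.notMem_support_iff.1 hk, abs_zero, zero_mul]

lemma summM (F : ℤ → ℝ) (g : A) : Summable fun k => g.coeff k * F k :=
  summable_of_ne_finset_zero (s := g.coeff.support) fun _ hk => by
    rw [Finsupp.notMem_support_iff.1 hk, zero_mul]

lemma NF_nonneg {F : ℤ → ℝ} (hF : ∀ k, 0 ≤ F k) (g : A) : 0 ≤ NF F g :=
  tsum_nonneg fun k => mul_nonneg (abs_nonneg _) (hF k)

lemma NF_zero (F : ℤ → ℝ) : NF F 0 = 0 := by simp [NF]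

lemma NF_add_le {F : ℤ → ℝ} (hF : ∀ k, 0 ≤ F k) (f g : A) : NF F (f + g) ≤ NF F f + NF F g := by
  unfold NF
  rw [← (summF F f).tsum_add (summF F g)]
  refine (summF F _).tsum_le_tsum (fun k => ?_) ((summF F f).add (summF F g))
  rw [AddMonoidAlgebra.coeff_add, ← add_mul]
  exact mul_le_mul_of_nonneg_right (abs_add_le _ _) (hF k)

lemma NF_sum_le {F : ℤ → ℝ} (hF : ∀ k, 0 ≤ F k) {ι : Type*} (s : Finset ι) (f : ι → A) :
    NF F (∑ i ∈ s, f i) ≤ ∑ i ∈ s, NF F (f i) := by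
  classical
  induction s using Finset.induction_on with
  | empty => simp [NF_zero]
  | insert a s ha ih =>
    rw [sum_insert ha, sum_insert ha]
    exact (NF_add_le hF _ _).trans (by linarith)

lemma NF_smul (F : ℤ → ℝ) (c : ℝ) (f : A) : NF F (c • f) = |c| * NF F f := by
  unfold NF
  rw [← tsum_mul_left]
  congr 1
  ext k
  rw [AddMonoidAlgebra.coeff_smul_apply, smul_eq_mul, abs_mul, mul_assoc]

lemma NF_neg (F : ℤ → ℝ) (f : A) : NF F (-f) = NF F f := by
  unfold NF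
  congr 1
  ext k
  rw [AddMonoidAlgebra.coeff_neg, Finsupp.neg_apply, abs_neg]

lemma NF_T_mul (F : ℤ → ℝ) (j : ℤ) (f : A) : NF F (T j * f) = NF (fun k => F (k + j)) f := by
  unfold NF
  rw [← (Equiv.addRight j).tsum_eq]
  congr 1
  ext k
  rw [coeff_T_mul]
  simp

lemma NF_mono {F F' : ℤ → ℝ} (h : ∀ k, F k ≤ F' k) (f : A) : NF F f ≤ NF F' f :=
  (summF F f).tsum_le_tsum (fun k => mul_le_mul_of_nonneg_left (h k) (abs_nonneg _)) (summF F' f)

lemma NF_const_mul (c : ℝ) (F : ℤ → ℝ) (f : A) : NF (fun k => c * F k) f = c * NF F f := by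
  unfold NF
  rw [← tsum_mul_left]
  congr 1
  ext k
  ring

lemma Mo_add (φ : ℤ → ℝ) (f g : A) : Mo φ (f + g) = Mo φ f + Mo φ g := by
  unfold Mo
  rw [← (summM φ f).tsum_add (summM φ g)]
  congr 1
  ext k
  rw [AddMonoidAlgebra.coeff_add, ← add_mul]
  rfl

lemma Mo_smul (φ : ℤ → ℝ) (c : ℝ) (f : A) : Mo φ (c • f) = c * Mo φ f := by
  unfold Mo
  rw [← tsum_mul_left]
  congr 1
  ext k
  rw [AddMonoidAlgebra.coeff_smul_apply, smul_eq_mul, mul_assoc]

lemma Mo_zero (φ : ℤ → ℝ) : Mo φ 0 = 0 := by simp [Mo]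

lemma Mo_sum (φ : ℤ → ℝ) {ι : Type*} (s : Finset ι) (f : ι → A) :
    Mo φ (∑ i ∈ s, f i) = ∑ i ∈ s, Mo φ (f i) := by
  classical
  induction s using Finset.induction_on with
  | empty => simp [Mo_zero]
  | insert a s ha ih => rw [sum_insert ha, sum_insert ha, Mo_add, ih]

lemma Mo_T_mul (φ : ℤ → ℝ) (j : ℤ) (f : A) : Mo φ (T j * f) = Mo (fun k => φ (k + j)) f := by
  unfold Mo
  rw [← (Equiv.addRight j).tsum_eq]
  congr 1
  ext k
  rw [coeff_T_mul]
  simp

lemma Mo_diff (φ : ℤ → ℝ) (f : A) :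
    Mo φ ((1 - T 1) * f) = Mo (fun k => φ k - φ (k + 1)) f := by
  have h1 : (1 - T 1) * f = f + (-1 : ℝ) • (T 1 * f) := by
    rw [neg_one_smul]; ring
  rw [h1, Mo_add, Mo_smul, Mo_T_mul]
  unfold Mo
  rw [← tsum_mul_left, ← (summM φ f).tsum_add ((summM (fun k => φ (k + 1)) f).mul_left (-1))]
  congr 1
  ext k
  ring

lemma Mo_fadd (φ ψ : ℤ → ℝ) (f : A) : Mo (fun k => φ k + ψ k) f = Mo φ f + Mo ψ f := by
  unfold Mo
  rw [← (summM φ f).tsum_add (summM ψ f)]
  congr 1
  ext k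
  ring

lemma Mo_fmul (c : ℝ) (φ : ℤ → ℝ) (f : A) : Mo (fun k => c * φ k) f = c * Mo φ f := by
  unfold Mo
  rw [← tsum_mul_left]
  congr 1
  ext k
  ring

lemma Mo_mono {φ ψ : ℤ → ℝ} {f : A} (hf : ∀ k, 0 ≤ f.coeff k) (h : ∀ k, φ k ≤ ψ k) :
    Mo φ f ≤ Mo ψ f :=
  (summM φ f).tsum_le_tsum (fun k => mul_le_mul_of_nonneg_left (h k) (hf k)) (summM ψ f)

lemma Mo_delta (f : A) (k : ℤ) (c : ℝ) : Mo (fun j => if j = k then c else 0) f = f.coeff k * c := by
  unfold Mo
  rw [tsum_eq_single k]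
  · beta_reduce
    rw [if_pos rfl]
  · intro j hj
    beta_reduce
    rw [if_neg hj, mul_zero]

lemma Mo_one_of_nonneg {f : A} (hf : ∀ k, 0 ≤ f.coeff k) : Mo (fun _ => 1) f = N1 f := by
  unfold Mo N1
  congr 1
  ext k
  rw [mul_one, abs_of_nonneg (hf k)]

lemma abs_Mo_le {φ F : ℤ → ℝ} (h : ∀ k, |φ k| ≤ F k) (g : A) : |Mo φ g| ≤ NF F g := by
  unfold Mo NF
  have h1 : Summable fun k => ‖g.coeff k * φ k‖ := by
    have := summF (fun k => |φ k|) g
    refine this.congr fun k => ?_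
    rw [Real.norm_eq_abs, abs_mul]
  rw [← Real.norm_eq_abs]
  refine (norm_tsum_le_tsum_norm h1).trans (h1.tsum_le_tsum (fun k => ?_) (summF F g))
  rw [Real.norm_eq_abs, abs_mul]
  exact mul_le_mul_of_nonneg_left (h k) (abs_nonneg _)

/-- The weight. -/
noncomputable def W (σ : ℝ) (k : ℤ) : ℝ := (1 + |(k : ℝ)| / σ) ^ 2

section

variable {σ : ℝ} (hσ : 1 ≤ σ)

include hσ

lemma W_pos (k : ℤ) : 0 < W σ k := by
  unfold W
  have : 0 < σ := by linarith
  positivity

lemma W_nonneg (k : ℤ) : 0 ≤ W σ k := (W_pos hσ k).le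

lemma W_mono {j k : ℤ} (h : |j| ≤ |k|) : W σ j ≤ W σ k := by
  unfold W
  have h1 : |(j : ℝ)| ≤ |(k : ℝ)| := by exact_mod_cast h
  have h0 : 0 < σ := by linarith
  have h2 : |(j : ℝ)| / σ ≤ |(k : ℝ)| / σ := div_le_div_of_nonneg_right h1 h0.le
  have h3 : 0 ≤ |(j : ℝ)| / σ := by positivity
  exact pow_le_pow_left₀ (by linarith) (by linarith) 2

lemma W_add_le (j k : ℤ) : W σ (k + j) ≤ W σ j * W σ k := by
  unfold W
  have h0 : 0 < σ := by linarith
  rw [← mul_pow]
  refine pow_le_pow_left₀ (by positivity) ?_ 2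
  have h1 : |((k + j : ℤ) : ℝ)| / σ ≤ |(j : ℝ)| / σ + |(k : ℝ)| / σ := by
    rw [← add_div]
    refine div_le_div_of_nonneg_right ?_ h0.le
    push_cast
    rw [add_comm (|(j : ℝ)|)]
    exact abs_add_le _ _
  have h2 : 0 ≤ |(j : ℝ)| / σ * (|(k : ℝ)| / σ) := by positivity
  nlinarith

lemma W_le_four {k : ℤ} (h : |(k : ℝ)| ≤ σ) : W σ k ≤ 4 := by
  unfold W
  have h0 : 0 < σ := by linarith
  have h1 : |(k : ℝ)| / σ ≤ 1 := by rwa [div_le_one h0]
  have h2 : 0 ≤ |(k : ℝ)| / σ := by positivity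
  nlinarith

lemma NW_T_mul_le (j : ℤ) (f : A) : NF (W σ) (T j * f) ≤ W σ j * NF (W σ) f := by
  rw [NF_T_mul, ← NF_const_mul]
  exact NF_mono (fun k => W_add_le hσ j k) f

lemma NW_mul_le (f g : A) : NF (W σ) (f * g) ≤ NF (W σ) f * NF (W σ) g := by
  have h : f * g = ∑ k ∈ f.coeff.support, f.coeff k • (T k * g) := by
    have h1 : f = ∑ k ∈ f.coeff.support, f.coeff k • T k := by
      conv_lhs => rw [← AddMonoidAlgebra.sum_coeff_single f]
      rw [Finsupp.sum]
      refine sum_congr rfl fun k _ => ?_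
      unfold T
      rw [AddMonoidAlgebra.smul_single, smul_eq_mul, mul_one]
    conv_lhs => rw [h1]
    rw [Finset.sum_mul]
    exact sum_congr rfl fun k _ => smul_mul_assoc _ _ _
  rw [h]
  refine (NF_sum_le (W_nonneg hσ) _ _).trans ?_
  have h2 : ∑ k ∈ f.coeff.support, NF (W σ) (f.coeff k • (T k * g)) ≤
      ∑ k ∈ f.coeff.support, (|f.coeff k| * W σ k) * NF (W σ) g := by
    refine sum_le_sum fun k _ => ?_
    rw [NF_smul, mul_assoc]
    exact mul_le_mul_of_nonneg_left (NW_T_mul_le hσ k g) (abs_nonneg _)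
  refine h2.trans ?_
  rw [← Finset.sum_mul]
  refine mul_le_mul_of_nonneg_right ?_ (NF_nonneg (W_nonneg hσ) g)
  exact (summF (W σ) f).sum_le_tsum _ fun k _ => mul_nonneg (abs_nonneg _) (W_nonneg hσ k)

omit hσ in
lemma NW_T_le (j : ℤ) : NF (W σ) (T j) = W σ j := by
  have h := NF_T_mul (W σ) j 1
  rw [mul_one] at h
  rw [h]
  unfold NF
  rw [tsum_eq_single 0]
  · beta_reduce
    rw [coeff_one, if_pos rfl, abs_one, one_mul, zero_add]
  · intro k hk
    rw [coeff_one, if_neg hk, abs_zero, zero_mul]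

/-- The pointwise bound by the weighted norm of the difference. -/
lemma W_coeff_le (g : A) (k : ℤ) : W σ k * |g.coeff k| ≤ NF (W σ) ((1 - T 1) * g) := by
  rcases le_or_gt 0 k with hk | hk
  · have h1 : Mo (fun j => if k < j then W σ k else 0) ((1 - T 1) * g) = g.coeff k * (- W σ k) := by
      rw [Mo_diff, ← Mo_delta]
      congr 1
      ext j
      by_cases h2 : k < j
      · rw [if_pos h2, if_pos (by omega), if_neg (by omega)]; ring
      · by_cases h3 : j = k
        · rw [if_neg h2, if_pos (by omega), if_pos h3]; ring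
        · rw [if_neg h2, if_neg (by omega), if_neg h3]; ring
    have h2 := abs_Mo_le (φ := fun j => if k < j then W σ k else 0) (F := W σ) (fun j => by
      split_ifs with h
      · rw [abs_of_pos (W_pos hσ k)]
        exact W_mono hσ (by rw [abs_of_nonneg hk, abs_of_nonneg (by omega)]; omega)
      · rw [abs_zero]; exact W_nonneg hσ j) ((1 - T 1) * g)
    rw [h1, abs_mul, abs_neg, abs_of_pos (W_pos hσ k)] at h2
    linarith
  · have h1 : Mo (fun j => if j ≤ k then W σ k else 0) ((1 - T 1) * g) = g.coeff k * (W σ k) := by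
      rw [Mo_diff, ← Mo_delta]
      congr 1
      ext j
      by_cases h2 : j + 1 ≤ k
      · rw [if_pos h2, if_pos (by omega), if_neg (by omega)]; ring
      · by_cases h3 : j = k
        · rw [if_neg h2, if_pos (by omega), if_pos h3]; ring
        · rw [if_neg h2, if_neg (by omega), if_neg h3]; ring
    have h2 := abs_Mo_le (φ := fun j => if j ≤ k then W σ k else 0) (F := W σ) (fun j => by
      split_ifs with h
      · rw [abs_of_pos (W_pos hσ k)]
        exact W_mono hσ (by rw [abs_of_neg hk, abs_of_neg (by omega)]; omega)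
      · rw [abs_zero]; exact W_nonneg hσ j) ((1 - T 1) * g)
    rw [h1, abs_mul, abs_of_pos (W_pos hσ k)] at h2
    linarith

/-- The weighted norm of the difference of a symmetric unimodal element. -/
lemma NW_diff_le {f : A} (h : SU f) :
    NF (W σ) ((1 - T 1) * f) ≤
      5 * f.coeff 0 + (3 / σ) * N1 f + (2 / σ ^ 2) * Mo (fun k => |(k : ℝ)|) f := by
  have h0 : 0 < σ := by linarith
  have e : ∀ k, ((1 - T 1) * f).coeff k = f.coeff k - f.coeff (k - 1) := by
    intro k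
    rw [sub_mul, one_mul, AddMonoidAlgebra.coeff_sub, Finsupp.sub_apply, coeff_T_mul]
  have h1 : NF (W σ) ((1 - T 1) * f) =
      Mo (fun k => W σ k * (if k ≤ 0 then 1 else -1)) ((1 - T 1) * f) := by
    unfold NF Mo
    congr 1
    ext k
    rw [e]
    beta_reduce
    split_ifs with hk
    · have : f.coeff (k - 1) ≤ f.coeff k := h.le (by
        rw [abs_of_nonpos hk, abs_of_nonpos (by omega)]; omega)
      rw [abs_of_nonneg (by linarith)]
      ring
    · have : f.coeff k ≤ f.coeff (k - 1) := h.le (by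
        rw [abs_of_nonneg (by omega : 0 ≤ k), abs_of_nonneg (by omega)]; omega)
      rw [abs_of_nonpos (by linarith)]
      ring
  rw [h1, Mo_diff]
  have h2 : ∀ k : ℤ, W σ k * (if k ≤ 0 then 1 else -1) - W σ (k + 1) * (if k + 1 ≤ 0 then 1 else -1) ≤
      ((if k = 0 then 5 else 0) + (3 / σ) * 1) + (2 / σ ^ 2) * |(k : ℝ)| := by
    intro k
    have hs : 0 < 1 / σ := by positivity
    have hs1 : 1 / σ ≤ 1 := by rw [div_le_one h0]; exact hσ
    have e3 : 3 / σ = 3 * (1 / σ) := by ring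
    have e2 : 2 / σ ^ 2 = 2 * (1 / σ) ^ 2 := by field_simp
    have eW : ∀ z : ℤ, W σ z = (1 + |(z : ℝ)| * (1 / σ)) ^ 2 := by
      intro z; unfold W; ring
    rw [e3, e2, eW, eW]
    set u := 1 / σ
    have hu2 : u ^ 2 ≤ u := by nlinarith
    rcases lt_trichotomy k 0 with hk | hk | hk
    · rw [if_pos hk.le, if_pos (by omega), if_neg hk.ne]
      have hk' : (k : ℝ) ≤ -1 := by exact_mod_cast (by omega : k ≤ -1)
      push_cast
      rw [abs_of_nonpos (by linarith : (k : ℝ) ≤ 0), abs_of_nonpos (by linarith : (k : ℝ) + 1 ≤ 0)]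
      nlinarith
    · subst hk
      simp only [le_refl, if_true]
      norm_num
      nlinarith
    · rw [if_neg (by omega), if_neg (by omega), if_neg hk.ne']
      have hk' : (0 : ℝ) < k := by exact_mod_cast hk
      push_cast
      rw [abs_of_pos hk', abs_of_pos (by linarith : (0 : ℝ) < (k : ℝ) + 1)]
      nlinarith
  refine (Mo_mono h.nonneg h2).trans (le_of_eq ?_)
  rw [Mo_fadd, Mo_fadd, Mo_delta, Mo_fmul, Mo_fmul, Mo_one_of_nonneg h.nonneg]
  ring

end

end Pool.Agent.V8H24.MX
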